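import Mathlib

/-!
Random convex sets in a normed space: the cone of bounded convex sets, the Radstrom map,
averages, expectation, independence; and a sequence of independent random sets with one common
(small, compact) expectation in a Hilbert space whose averages stay large.
-/

open MeasureTheory ProbabilityTheory Filter Topology Set
open scoped Pointwise BoundedContinuousFunction ENNReal RealInnerProductSpace

namespace X169.RS

/-- Non-empty bounded convex subsets of a real normed space. -/
structure BC (X : Type*) [NormedAddCommGroup X] [NormedSpace ℝ X] where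
  carrier : Set X
  nonempty : carrier.Nonempty
  bounded : Bornology.IsBounded carrier
  convex : Convex ℝ carrier

section Basic

variable {X : Type*} [NormedAddCommGroup X] [NormedSpace ℝ X]

/-- the support functional `f ↦ sup_{a ∈ A} f a` -/
noncomputable def supp (A : Set X) (f : StrongDual ℝ X) : ℝ := sSup (f '' A)

namespace BC

theorem ext' {A B : BC X} (h : A.carrier = B.carrier) : A = B := by
  cases A; cases B; congr

theorem carrier_injective : Function.Injective (BC.carrier : BC X → Set X) := fun _ _ h => ext' h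

/-- Minkowski sum -/
instance : Add (BC X) :=
  ⟨fun A B => ⟨A.carrier + B.carrier, A.nonempty.add B.nonempty, A.bounded.add B.bounded,
    A.convex.add B.convex⟩⟩

/-- the set `{0}` -/
instance : Zero (BC X) :=
  ⟨⟨{0}, singleton_nonempty 0, Bornology.isBounded_singleton, convex_singleton 0⟩⟩

/-- dilation by a real number -/
noncomputable instance : SMul ℝ (BC X) :=
  ⟨fun t A => ⟨t • A.carrier, A.nonempty.smul_set, A.bounded.smul₀ t, A.convex.smul t⟩⟩

theorem carrier_add (A B : BC X) : (A + B).carrier = A.carrier + B.carrier := rfl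
theorem carrier_zero : (0 : BC X).carrier = {0} := rfl
theorem carrier_smul (t : ℝ) (A : BC X) : (t • A).carrier = t • A.carrier := rfl

instance : AddCommMonoid (BC X) where
  add_assoc A B C := ext' (by simp only [carrier_add, add_assoc])
  zero_add A := ext' (by simp only [carrier_add, carrier_zero]; simp)
  add_zero A := ext' (by simp only [carrier_add, carrier_zero]; simp)
  add_comm A B := ext' (by simp only [carrier_add, add_comm])
  nsmul := nsmulRec

end BC

theorem bddAbove_image (A : BC X) (f : StrongDual ℝ X) : BddAbove (f '' A.carrier) := by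
  obtain ⟨r, hr⟩ := A.bounded.exists_norm_le
  refine ⟨‖f‖ * r, ?_⟩
  rintro _ ⟨a, ha, rfl⟩
  calc f a ≤ ‖f a‖ := le_abs_self _
    _ ≤ ‖f‖ * ‖a‖ := f.le_opNorm a
    _ ≤ ‖f‖ * r := by gcongr; exact hr a ha

theorem supp_add (A B : BC X) (f : StrongDual ℝ X) :
    supp (A + B).carrier f = supp A.carrier f + supp B.carrier f := by
  unfold supp
  rw [BC.carrier_add, Set.image_add]
  exact csSup_add (A.nonempty.image f) (bddAbove_image A f) (B.nonempty.image f)
    (bddAbove_image B f)

theorem supp_zero (f : StrongDual ℝ X) : supp (0 : BC X).carrier f = 0 := by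
  unfold supp
  rw [BC.carrier_zero]
  simp

theorem supp_smul {t : ℝ} (ht : 0 ≤ t) (A : BC X) (f : StrongDual ℝ X) :
    supp (t • A).carrier f = t * supp A.carrier f := by
  unfold supp
  rw [BC.carrier_smul]
  have : f '' (t • A.carrier) = t • (f '' A.carrier) := by
    ext x
    simp only [Set.mem_image, Set.mem_smul_set]
    constructor
    · rintro ⟨_, ⟨a, ha, rfl⟩, rfl⟩
      exact ⟨f a, ⟨a, ha, rfl⟩, by simp⟩
    · rintro ⟨_, ⟨a, ha, rfl⟩, rfl⟩
      exact ⟨t • a, ⟨a, ha, rfl⟩, by simp⟩
  rw [this, Real.sSup_smul_of_nonneg ht, smul_eq_mul]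

/-- `‖A‖ = sup_{a ∈ A} ‖a‖`. -/
noncomputable def setNorm (A : Set X) : ℝ := sSup (norm '' A)

theorem norm_le_setNorm (A : BC X) {a : X} (ha : a ∈ A.carrier) : ‖a‖ ≤ setNorm A.carrier := by
  refine le_csSup ?_ ⟨a, ha, rfl⟩
  obtain ⟨r, hr⟩ := A.bounded.exists_norm_le
  refine ⟨r, ?_⟩
  rintro _ ⟨b, hb, rfl⟩
  exact hr b hb

theorem setNorm_le (A : BC X) {r : ℝ} (h : ∀ a ∈ A.carrier, ‖a‖ ≤ r) : setNorm A.carrier ≤ r := by
  refine csSup_le (A.nonempty.image _) ?_
  rintro _ ⟨b, hb, rfl⟩
  exact h b hb

theorem setNorm_nonneg (A : BC X) : 0 ≤ setNorm A.carrier := by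
  obtain ⟨a, ha⟩ := A.nonempty
  exact (norm_nonneg a).trans (norm_le_setNorm A ha)

theorem supp_le_add (A : BC X) (f g : StrongDual ℝ X) :
    supp A.carrier f ≤ supp A.carrier g + setNorm A.carrier * ‖f - g‖ := by
  refine csSup_le (A.nonempty.image _) ?_
  rintro _ ⟨a, ha, rfl⟩
  have h1 : g a ≤ supp A.carrier g := le_csSup (bddAbove_image A g) ⟨a, ha, rfl⟩
  have h2 : (f - g) a ≤ setNorm A.carrier * ‖f - g‖ := by
    calc (f - g) a ≤ ‖(f - g) a‖ := le_abs_self _
      _ ≤ ‖f - g‖ * ‖a‖ := (f - g).le_opNorm a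
      _ ≤ ‖f - g‖ * setNorm A.carrier := by gcongr; exact norm_le_setNorm A ha
      _ = _ := mul_comm _ _
  have h3 : (f - g) a = f a - g a := rfl
  linarith

theorem abs_supp_sub_le (A : BC X) (f g : StrongDual ℝ X) :
    |supp A.carrier f - supp A.carrier g| ≤ setNorm A.carrier * ‖f - g‖ := by
  rw [abs_le]
  constructor
  · have := supp_le_add A g f
    rw [norm_sub_rev] at this
    linarith
  · have := supp_le_add A f g
    linarith

theorem continuous_supp (A : BC X) : Continuous (supp A.carrier) := by
  have : LipschitzWith (Real.toNNReal (setNorm A.carrier)) (supp A.carrier) := by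
    refine LipschitzWith.of_dist_le_mul fun f g => ?_
    rw [Real.dist_eq, dist_eq_norm, Real.coe_toNNReal _ (setNorm_nonneg A)]
    exact abs_supp_sub_le A f g
  exact this.continuous

theorem abs_supp_le (A : BC X) (f : StrongDual ℝ X) : |supp A.carrier f| ≤ setNorm A.carrier * ‖f‖ := by
  have h := abs_supp_sub_le A f 0
  have h0 : supp A.carrier (0 : StrongDual ℝ X) = 0 := by
    unfold supp
    have : (fun a => (0 : StrongDual ℝ X) a) '' A.carrier = {0} := by
      ext x
      simp only [Set.mem_image, Set.mem_singleton_iff]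
      constructor
      · rintro ⟨a, _, h⟩
        exact h.symm
      · rintro rfl
        obtain ⟨a, ha⟩ := A.nonempty
        exact ⟨a, ha, rfl⟩
    rw [show ((0 : StrongDual ℝ X) '' A.carrier) = {0} from this]
    simp
  rw [h0, sub_zero, sub_zero] at h
  exact h

/-- The unit sphere of the dual. -/
abbrev DualSphere (X : Type*) [NormedAddCommGroup X] [NormedSpace ℝ X] :=
  Metric.sphere (0 : StrongDual ℝ X) 1

/-- The Radstrom embedding. -/
noncomputable def R (A : BC X) : DualSphere X →ᵇ ℝ :=
  BoundedContinuousFunction.ofNormedAddCommGroup (fun f : DualSphere X => supp A.carrier f.1)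
    ((continuous_supp A).comp continuous_subtype_val) (setNorm A.carrier) (by
      intro f
      have hf : ‖f.1‖ = 1 := mem_sphere_zero_iff_norm.1 f.2
      have := abs_supp_le A f.1
      rw [hf, mul_one] at this
      exact this)

theorem R_apply (A : BC X) (f : DualSphere X) : R A f = supp A.carrier f.1 := rfl

theorem R_add (A B : BC X) : R (A + B) = R A + R B := by
  ext f
  simp only [R_apply, supp_add, BoundedContinuousFunction.add_apply]

theorem R_zero : R (0 : BC X) = 0 := by
  ext f
  rw [R_apply, supp_zero]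
  rfl

theorem R_smul {t : ℝ} (ht : 0 ≤ t) (A : BC X) : R (t • A) = t • R A := by
  ext f
  simp only [R_apply, supp_smul ht, BoundedContinuousFunction.smul_apply, smul_eq_mul]

theorem R_sum {ι : Type*} (s : Finset ι) (A : ι → BC X) : R (∑ i ∈ s, A i) = ∑ i ∈ s, R (A i) := by
  classical
  induction s using Finset.induction_on with
  | empty => simp [R_zero]
  | insert a s ha ih => rw [Finset.sum_insert ha, Finset.sum_insert ha, R_add, ih]

theorem mem_sum {ι : Type*} (s : Finset ι) (A : ι → BC X) (x : X) :
    x ∈ (∑ i ∈ s, A i).carrier ↔ ∃ a : ι → X, (∀ i ∈ s, a i ∈ (A i).carrier) ∧ ∑ i ∈ s, a i = x := by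
  classical
  induction s using Finset.induction_on generalizing x with
  | empty =>
    simp only [Finset.sum_empty, BC.carrier_zero, Set.mem_singleton_iff]
    constructor
    · rintro rfl
      exact ⟨0, by simp, rfl⟩
    · rintro ⟨_, _, h⟩
      exact h.symm
  | insert b s hb ih =>
    rw [Finset.sum_insert hb, BC.carrier_add, Set.mem_add]
    constructor
    · rintro ⟨y, hy, z, hz, rfl⟩
      obtain ⟨a, ha, rfl⟩ := (ih z).1 hz
      refine ⟨Function.update a b y, ?_, ?_⟩
      · intro i hi
        rcases Finset.mem_insert.1 hi with rfl | hi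
        · simpa using hy
        · rw [Function.update_of_ne (ne_of_mem_of_not_mem hi hb)]
          exact ha i hi
      · rw [Finset.sum_insert hb]
        simp only [Function.update_self]
        congr 1
        refine Finset.sum_congr rfl fun i hi => ?_
        rw [Function.update_of_ne (ne_of_mem_of_not_mem hi hb)]
    · rintro ⟨a, ha, rfl⟩
      rw [Finset.sum_insert hb]
      exact ⟨a b, ha b (Finset.mem_insert_self _ _), _,
        (ih _).2 ⟨a, fun i hi => ha i (Finset.mem_insert_of_mem hi), rfl⟩, rfl⟩

end Basic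

section Random

variable {X : Type*} [NormedAddCommGroup X] [NormedSpace ℝ X]
variable {Ω : Type*} [MeasurableSpace Ω]

/-- The Borel sigma-algebra on the space of bounded continuous functions on the dual sphere. -/
noncomputable instance instMeasurableSpaceRange : MeasurableSpace (DualSphere X →ᵇ ℝ) := borel _

instance instBorelSpaceRange : BorelSpace (DualSphere X →ᵇ ℝ) := ⟨rfl⟩

/-- the `n`-th average `(1/n) (Ψ_0(ω) + ... + Ψ_{n-1}(ω))` -/
noncomputable def avg (Ψ : ℕ → Ω → BC X) (n : ℕ) (ω : Ω) : BC X :=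
  ((n : ℝ)⁻¹) • ∑ i ∈ Finset.range n, Ψ i ω

/-- `U` is the expectation of `Ψ`. -/
def HasExpectation (Ψ : Ω → BC X) (U : BC X) (μ : Measure Ω) : Prop :=
  Integrable (fun ω => R (Ψ ω)) μ ∧ ∫ ω, R (Ψ ω) ∂μ = R U

/-- Independence of random sets: the random vectors `R ∘ Ψ_n` are independent. -/
def IndepSets (Ψ : ℕ → Ω → BC X) (μ : Measure Ω) : Prop :=
  iIndepFun (fun n ω => R (Ψ n ω)) μ

end Random

section Series

variable {X : Type*} [NormedAddCommGroup X] [NormedSpace ℝ X]

/-- the infinite Minkowski sum -/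
def msumSet (A : ℕ → Set X) : Set X := {x | ∃ u : ℕ → X, (∀ i, u i ∈ A i) ∧ HasSum u x}

theorem convex_msumSet {A : ℕ → Set X} (hA : ∀ i, Convex ℝ (A i)) : Convex ℝ (msumSet A) := by
  rintro x ⟨u, hu, hx⟩ y ⟨v, hv, hy⟩ a b ha hb hab
  exact ⟨fun i => a • u i + b • v i, fun i => hA i (hu i) (hv i) ha hb hab,
    (hx.const_smul a).add (hy.const_smul b)⟩

theorem norm_le_of_mem_msumSet {A : ℕ → Set X} {c : ℕ → ℝ} (hc : Summable c)
    (h : ∀ i, ∀ a ∈ A i, ‖a‖ ≤ c i) {x : X} (hx : x ∈ msumSet A) : ‖x‖ ≤ ∑' i, c i := by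
  obtain ⟨u, hu, hx⟩ := hx
  rw [← hx.tsum_eq]
  exact tsum_of_norm_bounded hc.hasSum (fun i => h i _ (hu i))

theorem msumSet_eq [CompleteSpace X] {A : ℕ → Set X} {c : ℕ → ℝ} (hc : Summable c)
    (h : ∀ i, ∀ a ∈ A i, ‖a‖ ≤ c i) :
    msumSet A = (fun u : ℕ → X => ∑' i, u i) '' (Set.univ.pi A) := by
  ext x
  constructor
  · rintro ⟨u, hu, hx⟩
    exact ⟨u, fun i _ => hu i, hx.tsum_eq⟩
  · rintro ⟨u, hu, rfl⟩
    refine ⟨u, fun i => hu i (Set.mem_univ i), ?_⟩
    exact (Summable.of_norm_bounded hc (fun i => h i _ (hu i (Set.mem_univ i)))).hasSum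

theorem isCompact_msumSet [CompleteSpace X] {A : ℕ → Set X} {c : ℕ → ℝ} (hc : Summable c)
    (h : ∀ i, ∀ a ∈ A i, ‖a‖ ≤ c i) (hA : ∀ i, IsCompact (A i)) : IsCompact (msumSet A) := by
  rw [msumSet_eq hc h]
  refine (isCompact_univ_pi hA).image_of_continuousOn ?_
  refine continuousOn_tsum (u := c) (fun i => (continuous_apply i).continuousOn) hc ?_
  intro i u hu
  exact h i _ (hu i (Set.mem_univ i))

theorem msumSet_split {A : ℕ → Set X} (i : ℕ) :
    msumSet A = A i + msumSet (Function.update A i {0}) := by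
  ext x
  rw [Set.mem_add]
  constructor
  · rintro ⟨u, hu, hx⟩
    refine ⟨u i, hu i, x - u i, ⟨Function.update u i 0, ?_, ?_⟩, by abel⟩
    · intro j
      by_cases hj : j = i
      · subst hj
        simp
      · rw [Function.update_of_ne hj, Function.update_of_ne hj]
        exact hu j
    · have := hx.update i 0
      convert this using 1
      abel
  · rintro ⟨a, ha, y, ⟨v, hv, hy⟩, rfl⟩
    refine ⟨Function.update v i a, ?_, ?_⟩
    · intro j
      by_cases hj : j = i
      · subst hj
        simpa using ha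
      · rw [Function.update_of_ne hj]
        have := hv j
        rwa [Function.update_of_ne hj] at this
    · have h0 : v i = 0 := by
        have := hv i
        simpa using this
      have := hy.update i a
      rw [h0, sub_zero] at this
      exact this

end Series

end X169.RS
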