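import Mathlib
import Pool.Agent.X169.RandomSets

/-!
Independent random sets in a Hilbert space with one common expectation, small and compact,
whose averages stay large.
-/

open MeasureTheory ProbabilityTheory Filter Topology Set
open scoped Pointwise BoundedContinuousFunction ENNReal RealInnerProductSpace

namespace X169.RS

/-- indices of the basis vectors: a stage `k` and a choice of an element of `Fin (M i)` for
each `i < 2k+2`. -/
abbrev Idx (M : ℕ → ℕ) : Type := (k : ℕ) × ((i : Fin (2 * k + 2)) → Fin (M i))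

section

variable {H : Type*} [NormedAddCommGroup H] [InnerProductSpace ℝ H]

/-- The generating vectors of `V i θ`. -/
def G (M : ℕ → ℕ) (e : Idx M → H) (i : ℕ) (θ : Fin (M i)) : Set H :=
  {x | ∃ (p : Idx M) (h : i < 2 * p.1 + 2), p.1 ≤ i ∧ p.2 ⟨i, h⟩ = θ ∧ x = (1 / 2 : ℝ) • e p}

theorem finite_G (M : ℕ → ℕ) (e : Idx M → H) (i : ℕ) (θ : Fin (M i)) : (G M e i θ).Finite := by
  classical
  let F : Finset (Idx M) := (Finset.range (i + 1)).sigma (fun k => Finset.univ)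
  refine (F.finite_toSet.image fun p => (1 / 2 : ℝ) • e p).subset ?_
  rintro x ⟨p, h, hp, _, rfl⟩
  refine ⟨p, ?_, rfl⟩
  simp only [F, Finset.coe_sigma, Set.mem_sigma_iff, Finset.coe_range, Set.mem_Iio,
    Finset.coe_univ, Set.mem_univ, and_true]
  omega

/-- `V i θ` is the convex hull of `0` and the generating vectors. -/
noncomputable def V (M : ℕ → ℕ) (e : Idx M → H) (i : ℕ) (θ : Fin (M i)) : BC H where
  carrier := convexHull ℝ (insert 0 (G M e i θ))
  nonempty := ⟨0, subset_convexHull ℝ _ (mem_insert 0 _)⟩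
  bounded := (((finite_G M e i θ).insert 0).isCompact_convexHull ℝ).isBounded
  convex := convex_convexHull ℝ _

theorem zero_mem_V (M : ℕ → ℕ) (e : Idx M → H) (i : ℕ) (θ : Fin (M i)) :
    (0 : H) ∈ (V M e i θ).carrier := subset_convexHull ℝ _ (mem_insert 0 _)

theorem isCompact_V (M : ℕ → ℕ) (e : Idx M → H) (i : ℕ) (θ : Fin (M i)) :
    IsCompact (V M e i θ).carrier := ((finite_G M e i θ).insert 0).isCompact_convexHull ℝ

theorem norm_le_V {M : ℕ → ℕ} {e : Idx M → H} (he : Orthonormal ℝ e) (i : ℕ) (θ : Fin (M i))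
    {x : H} (hx : x ∈ (V M e i θ).carrier) : ‖x‖ ≤ 1 / 2 := by
  have h : convexHull ℝ (insert 0 (G M e i θ)) ⊆ Metric.closedBall (0 : H) (1 / 2) := by
    refine convexHull_min ?_ (convex_closedBall 0 _)
    rintro y (rfl | ⟨p, h, _, _, rfl⟩)
    · simp
    · simp [norm_smul, he.1 p]
  simpa using h hx

theorem V_subset_span (M : ℕ → ℕ) (e : Idx M → H) (i : ℕ) (θ : Fin (M i)) :
    (V M e i θ).carrier ⊆ Submodule.span ℝ (G M e i θ) := by
  refine convexHull_min ?_ (Submodule.span ℝ (G M e i θ)).convex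
  rintro y (rfl | hy)
  · exact Submodule.zero_mem _
  · exact Submodule.subset_span hy

theorem inner_V {M : ℕ → ℕ} {e : Idx M → H} (he : Orthonormal ℝ e) (i : ℕ) {θ θ' : Fin (M i)}
    (hne : θ ≠ θ') {x y : H} (hx : x ∈ (V M e i θ).carrier) (hy : y ∈ (V M e i θ').carrier) :
    ⟪x, y⟫ = 0 := by
  have h : Submodule.span ℝ (G M e i θ) ⟂ Submodule.span ℝ (G M e i θ') := by
    rw [Submodule.isOrtho_span]
    rintro u ⟨p, h, _, hp, rfl⟩ v ⟨q, h', _, hq, rfl⟩
    have hpq : p ≠ q := by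
      rintro rfl
      exact hne (hp.symm.trans hq)
    rw [inner_smul_left, inner_smul_right, he.2 hpq]
    simp
  exact h.inner_eq (V_subset_span M e i θ hx) (V_subset_span M e i θ' hy)

/-- `U i = (1/M_i) ∑_θ V i θ`. -/
noncomputable def Ui (M : ℕ → ℕ) (e : Idx M → H) (i : ℕ) : BC H :=
  ((M i : ℝ)⁻¹) • ∑ θ, V M e i θ

theorem zero_mem_Ui (M : ℕ → ℕ) (e : Idx M → H) (i : ℕ) : (0 : H) ∈ (Ui M e i).carrier := by
  rw [Ui, BC.carrier_smul, Set.mem_smul_set]
  refine ⟨0, ?_, by simp⟩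
  rw [mem_sum]
  exact ⟨0, fun θ _ => zero_mem_V M e i θ, by simp⟩

theorem isCompact_sum {ι : Type*} (s : Finset ι) (A : ι → BC H)
    (hA : ∀ i ∈ s, IsCompact (A i).carrier) : IsCompact (∑ i ∈ s, A i).carrier := by
  classical
  induction s using Finset.induction_on with
  | empty => simp [BC.carrier_zero]
  | insert a s ha ih =>
    rw [Finset.sum_insert ha, BC.carrier_add]
    exact (hA a (Finset.mem_insert_self _ _)).add
      (ih fun i hi => hA i (Finset.mem_insert_of_mem hi))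

theorem isCompact_Ui (M : ℕ → ℕ) (e : Idx M → H) (i : ℕ) : IsCompact (Ui M e i).carrier := by
  rw [Ui, BC.carrier_smul]
  exact (isCompact_sum _ _ fun θ _ => isCompact_V M e i θ).smul _

theorem norm_le_Ui {M : ℕ → ℕ} {e : Idx M → H} (he : Orthonormal ℝ e) (i : ℕ) (hM : 0 < M i)
    {x : H} (hx : x ∈ (Ui M e i).carrier) : ‖x‖ ≤ 1 / 2 * (√(M i : ℝ))⁻¹ := by
  rw [Ui, BC.carrier_smul, Set.mem_smul_set] at hx
  obtain ⟨y, hy, rfl⟩ := hx
  rw [mem_sum] at hy
  obtain ⟨v, hv, rfl⟩ := hy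
  have hM' : (0 : ℝ) < M i := by exact_mod_cast hM
  have h1 : ‖∑ θ, v θ‖ ^ 2 ≤ M i * (1 / 2) ^ 2 := by
    rw [← real_inner_self_eq_norm_sq, sum_inner]
    calc ∑ θ, ⟪v θ, ∑ θ', v θ'⟫ = ∑ θ, ‖v θ‖ ^ 2 := by
          refine Finset.sum_congr rfl fun θ _ => ?_
          rw [inner_sum, Finset.sum_eq_single θ]
          · rw [real_inner_self_eq_norm_sq]
          · intro θ' _ hne
            exact inner_V he i hne.symm (hv θ (Finset.mem_univ _)) (hv θ' (Finset.mem_univ _))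
          · simp
      _ ≤ ∑ θ : Fin (M i), (1 / 2 : ℝ) ^ 2 := by
          refine Finset.sum_le_sum fun θ _ => ?_
          have := norm_le_V he i θ (hv θ (Finset.mem_univ _))
          gcongr
      _ = M i * (1 / 2) ^ 2 := by simp
  have h2 : ‖∑ θ, v θ‖ ≤ √(M i : ℝ) * (1 / 2) := by
    refine abs_le_of_sq_le_sq' ?_ (by positivity) |>.2
    rw [mul_pow, Real.sq_sqrt hM'.le]
    exact h1
  rw [norm_smul, norm_inv, Real.norm_of_nonneg hM'.le]
  calc (M i : ℝ)⁻¹ * ‖∑ θ, v θ‖ ≤ (M i : ℝ)⁻¹ * (√(M i : ℝ) * (1 / 2)) := by gcongr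
    _ = 1 / 2 * (√(M i : ℝ))⁻¹ := by
      have hs : √(M i : ℝ) ≠ 0 := (Real.sqrt_pos.2 hM').ne'
      have hss : (M i : ℝ) = √(M i : ℝ) * √(M i : ℝ) := (Real.mul_self_sqrt hM'.le).symm
      generalize √(M i : ℝ) = s at hs hss
      rw [hss]
      field_simp

/-- The family with `i`-th member `{0}` and other members `Ui j`. -/
noncomputable def others (M : ℕ → ℕ) (e : Idx M → H) (i : ℕ) : ℕ → Set H :=
  Function.update (fun j => (Ui M e j).carrier) i {0}

theorem norm_le_others {M : ℕ → ℕ} {e : Idx M → H} (he : Orthonormal ℝ e) (hM : ∀ i, 0 < M i)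
    (i : ℕ) (j : ℕ) {x : H} (hx : x ∈ others M e i j) : ‖x‖ ≤ 1 / 2 * (√(M j : ℝ))⁻¹ := by
  by_cases hj : j = i
  · subst hj
    simp only [others, Function.update_self, Set.mem_singleton_iff] at hx
    rw [hx, norm_zero]
    positivity
  · rw [others, Function.update_of_ne hj] at hx
    exact norm_le_Ui he j (hM j) hx

variable [CompleteSpace H]

/-- the common expectation `U = ∑_i U_i`. -/
noncomputable def Utot {M : ℕ → ℕ} {e : Idx M → H} (he : Orthonormal ℝ e) (hM : ∀ i, 0 < M i)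
    (hs : Summable fun i => 1 / 2 * (√(M i : ℝ))⁻¹) : BC H where
  carrier := msumSet fun j => (Ui M e j).carrier
  nonempty := ⟨0, fun _ => 0, fun i => zero_mem_Ui M e i, hasSum_zero⟩
  bounded := (isCompact_msumSet hs (fun i _ ha => norm_le_Ui he i (hM i) ha)
    (fun i => isCompact_Ui M e i)).isBounded
  convex := convex_msumSet fun i => (Ui M e i).convex

/-- the sum `C_i` of all `U_j` with `j ≠ i`. -/
noncomputable def Ctot {M : ℕ → ℕ} {e : Idx M → H} (he : Orthonormal ℝ e) (hM : ∀ i, 0 < M i)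
    (hs : Summable fun i => 1 / 2 * (√(M i : ℝ))⁻¹) (i : ℕ) : BC H where
  carrier := msumSet (others M e i)
  nonempty := by
    refine ⟨0, fun _ => 0, fun j => ?_, hasSum_zero⟩
    by_cases hj : j = i
    · subst hj
      simp [others]
    · rw [others, Function.update_of_ne hj]
      exact zero_mem_Ui M e j
  bounded := by
    refine isBounded_iff_forall_norm_le.2 ⟨∑' i, 1 / 2 * (√(M i : ℝ))⁻¹, fun x hx => ?_⟩
    exact norm_le_of_mem_msumSet hs (fun j _ ha => norm_le_others he hM i j ha) hx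
  convex := by
    refine convex_msumSet fun j => ?_
    by_cases hj : j = i
    · subst hj
      simp [others]
    · rw [others, Function.update_of_ne hj]
      exact (Ui M e j).convex

theorem zero_mem_Ctot {M : ℕ → ℕ} {e : Idx M → H} (he : Orthonormal ℝ e) (hM : ∀ i, 0 < M i)
    (hs : Summable fun i => 1 / 2 * (√(M i : ℝ))⁻¹) (i : ℕ) :
    (0 : H) ∈ (Ctot he hM hs i).carrier := by
  refine ⟨fun _ => 0, fun j => ?_, hasSum_zero⟩
  by_cases hj : j = i
  · subst hj
    simp [others]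
  · rw [others, Function.update_of_ne hj]
    exact zero_mem_Ui M e j

theorem Utot_eq {M : ℕ → ℕ} {e : Idx M → H} (he : Orthonormal ℝ e) (hM : ∀ i, 0 < M i)
    (hs : Summable fun i => 1 / 2 * (√(M i : ℝ))⁻¹) (i : ℕ) :
    Utot he hM hs = Ui M e i + Ctot he hM hs i := by
  refine BC.ext' ?_
  rw [BC.carrier_add]
  exact msumSet_split i

theorem norm_le_Utot {M : ℕ → ℕ} {e : Idx M → H} (he : Orthonormal ℝ e) (hM : ∀ i, 0 < M i)
    (hs : Summable fun i => 1 / 2 * (√(M i : ℝ))⁻¹) {x : H} (hx : x ∈ (Utot he hM hs).carrier) :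
    ‖x‖ ≤ ∑' i, 1 / 2 * (√(M i : ℝ))⁻¹ :=
  norm_le_of_mem_msumSet hs (fun i _ ha => norm_le_Ui he i (hM i) ha) hx

theorem norm_le_Ctot {M : ℕ → ℕ} {e : Idx M → H} (he : Orthonormal ℝ e) (hM : ∀ i, 0 < M i)
    (hs : Summable fun i => 1 / 2 * (√(M i : ℝ))⁻¹) (i : ℕ) {x : H}
    (hx : x ∈ (Ctot he hM hs i).carrier) :
    ‖x‖ ≤ ∑' i, 1 / 2 * (√(M i : ℝ))⁻¹ :=
  norm_le_of_mem_msumSet hs (fun j _ ha => norm_le_others he hM i j ha) hx

/-- the random sets -/
noncomputable def Psi {M : ℕ → ℕ} {e : Idx M → H} (he : Orthonormal ℝ e) (hM : ∀ i, 0 < M i)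
    (hs : Summable fun i => 1 / 2 * (√(M i : ℝ))⁻¹) (i : ℕ) (ω : (i : ℕ) → Fin (M i)) : BC H :=
  V M e i (ω i) + Ctot he hM hs i

theorem norm_le_Psi {M : ℕ → ℕ} {e : Idx M → H} (he : Orthonormal ℝ e) (hM : ∀ i, 0 < M i)
    (hs : Summable fun i => 1 / 2 * (√(M i : ℝ))⁻¹) (i : ℕ) (ω : (i : ℕ) → Fin (M i)) {x : H}
    (hx : x ∈ (Psi he hM hs i ω).carrier) : ‖x‖ ≤ 1 / 2 + ∑' i, 1 / 2 * (√(M i : ℝ))⁻¹ := by
  rw [Psi, BC.carrier_add, Set.mem_add] at hx
  obtain ⟨a, ha, b, hb, rfl⟩ := hx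
  exact (norm_add_le a b).trans (add_le_add (norm_le_V he i _ ha) (norm_le_Ctot he hM hs i hb))

theorem avg_large {M : ℕ → ℕ} {e : Idx M → H} (he : Orthonormal ℝ e) (hM : ∀ i, 0 < M i)
    (hs : Summable fun i => 1 / 2 * (√(M i : ℝ))⁻¹) (ω : (i : ℕ) → Fin (M i)) (k : ℕ) :
    ∃ x ∈ (avg (Psi he hM hs) (2 * k + 2) ω).carrier, 1 / 4 ≤ ‖x‖ := by
  let p : Idx M := ⟨k, fun i => ω i⟩
  let a : ℕ → H := fun i => if k ≤ i then (1 / 2 : ℝ) • e p else 0
  have ha : ∀ i ∈ Finset.range (2 * k + 2), a i ∈ (Psi he hM hs i ω).carrier := by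
    intro i hi
    rw [Finset.mem_range] at hi
    rw [Psi, BC.carrier_add, Set.mem_add]
    refine ⟨a i, ?_, 0, zero_mem_Ctot he hM hs i, add_zero _⟩
    by_cases hk : k ≤ i
    · simp only [a, hk, if_true]
      exact subset_convexHull ℝ _ (mem_insert_of_mem _ ⟨p, hi, hk, rfl, rfl⟩)
    · simp only [a, hk, if_false]
      exact zero_mem_V M e i _
  have hsum : ∑ i ∈ Finset.range (2 * k + 2), a i = ((k + 2 : ℕ) : ℝ) • ((1 / 2 : ℝ) • e p) := by
    simp only [a]
    rw [← Finset.sum_filter, Finset.sum_const]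
    have : (Finset.filter (fun i => k ≤ i) (Finset.range (2 * k + 2))).card = k + 2 := by
      have : Finset.filter (fun i => k ≤ i) (Finset.range (2 * k + 2)) = Finset.Ico k (2 * k + 2) := by
        ext i
        simp only [Finset.mem_filter, Finset.mem_range, Finset.mem_Ico]
        tauto
      rw [this, Nat.card_Ico]
      omega
    rw [this, Nat.cast_smul_eq_nsmul]
  refine ⟨(((2 * k + 2 : ℕ) : ℝ)⁻¹) • ∑ i ∈ Finset.range (2 * k + 2), a i, ?_, ?_⟩
  · rw [avg, BC.carrier_smul]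
    exact Set.smul_mem_smul_set ((mem_sum _ _ _).2 ⟨a, ha, rfl⟩)
  · rw [hsum, norm_smul, norm_smul, norm_smul, he.1 p]
    rw [Real.norm_of_nonneg (by positivity), Real.norm_of_nonneg (by positivity),
      Real.norm_of_nonneg (by positivity)]
    push_cast
    have hk : (0 : ℝ) ≤ k := Nat.cast_nonneg k
    rw [mul_one, inv_mul_eq_div, le_div_iff₀ (by positivity)]
    nlinarith

end

section Prob

variable {H : Type*} [NormedAddCommGroup H] [InnerProductSpace ℝ H] [CompleteSpace H]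

/-- the uniform product measure -/
noncomputable def prodM (M : ℕ → ℕ) : Measure ((i : ℕ) → Fin (M i)) :=
  Measure.infinitePi fun i => uniformOn (Set.univ : Set (Fin (M i)))

theorem isProb (M : ℕ → ℕ) (hM : ∀ i, 0 < M i) : IsProbabilityMeasure (prodM M) := by
  have (i : ℕ) : Nonempty (Fin (M i)) := ⟨⟨0, hM i⟩⟩
  unfold prodM
  infer_instance

theorem stronglyMeasurable_Psi {M : ℕ → ℕ} {e : Idx M → H} (he : Orthonormal ℝ e)
    (hM : ∀ i, 0 < M i) (hs : Summable fun i => 1 / 2 * (√(M i : ℝ))⁻¹) (i : ℕ) :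
    StronglyMeasurable fun ω => R (Psi he hM hs i ω) := by
  have h : StronglyMeasurable (fun θ : Fin (M i) => R (V M e i θ + Ctot he hM hs i)) :=
    StronglyMeasurable.of_discrete
  exact h.comp_measurable (measurable_pi_apply i)

theorem hasExpectation_Psi {M : ℕ → ℕ} {e : Idx M → H} (he : Orthonormal ℝ e)
    (hM : ∀ i, 0 < M i) (hs : Summable fun i => 1 / 2 * (√(M i : ℝ))⁻¹) (i : ℕ) :
    HasExpectation (Psi he hM hs i) (Utot he hM hs) (prodM M) := by
  have (i : ℕ) : Nonempty (Fin (M i)) := ⟨⟨0, hM i⟩⟩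
  have := isProb M hM
  have hmap : (prodM M).map (fun x => x i) = uniformOn (Set.univ : Set (Fin (M i))) :=
    Measure.infinitePi_map_eval _ i
  let F : Fin (M i) → (DualSphere H →ᵇ ℝ) := fun θ => R (V M e i θ + Ctot he hM hs i)
  have hF : StronglyMeasurable F := StronglyMeasurable.of_discrete
  have hFi : Integrable F (uniformOn (Set.univ : Set (Fin (M i)))) := Integrable.of_finite
  constructor
  · have h2 : Integrable F ((prodM M).map (fun x => x i)) := by rw [hmap]; exact hFi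
    exact h2.comp_measurable (measurable_pi_apply i)
  · have h1 : ∫ ω, R (Psi he hM hs i ω) ∂(prodM M) = ∫ ω, F (ω i) ∂(prodM M) := rfl
    have hM' : (M i : ℝ) ≠ 0 := by
      have := hM i
      positivity
    rw [h1, ← integral_map (φ := fun ω : (i : ℕ) → Fin (M i) => ω i) (f := F)
      (measurable_pi_apply i).aemeasurable hF.aestronglyMeasurable, hmap, integral_fintype hFi]
    have hreal : ∀ θ : Fin (M i), (uniformOn (Set.univ : Set (Fin (M i)))).real {θ} = (M i : ℝ)⁻¹ := by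
      intro θ
      rw [measureReal_def, uniformOn_univ, Measure.count_singleton]
      simp
    simp only [hreal]
    rw [Utot_eq he hM hs i, Ui, R_add, R_smul (by positivity), R_sum]
    simp only [F, R_add]
    rw [← Finset.smul_sum, Finset.sum_add_distrib, smul_add, Finset.sum_const, Finset.card_univ,
      Fintype.card_fin, ← Nat.cast_smul_eq_nsmul ℝ, smul_smul, inv_mul_cancel₀ hM', one_smul]

theorem indep_Psi {M : ℕ → ℕ} {e : Idx M → H} (he : Orthonormal ℝ e)
    (hM : ∀ i, 0 < M i) (hs : Summable fun i => 1 / 2 * (√(M i : ℝ))⁻¹) :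
    IndepSets (Psi he hM hs) (prodM M) := by
  have (i : ℕ) : Nonempty (Fin (M i)) := ⟨⟨0, hM i⟩⟩
  exact iIndepFun_infinitePi (P := fun i => uniformOn (Set.univ : Set (Fin (M i))))
    (X := fun i θ => R (V M e i θ + Ctot he hM hs i)) (fun i => Measurable.of_discrete)

end Prob

/-- The example. -/
theorem exists_example {H : Type*} [NormedAddCommGroup H] [InnerProductSpace ℝ H]
    [CompleteSpace H] {b : ℕ → H} (hb : Orthonormal ℝ b) {δ : ℝ} (hδ : 0 < δ) :
    ∃ (Ω : Type) (_ : MeasurableSpace Ω) (μ : Measure Ω) (_ : IsProbabilityMeasure μ)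
      (Ψ : ℕ → Ω → BC H) (U : BC H),
      IsCompact U.carrier ∧ (∀ x ∈ U.carrier, ‖x‖ ≤ δ) ∧
      (∀ n ω, ∀ x ∈ (Ψ n ω).carrier, ‖x‖ ≤ 1) ∧
      (∀ n, StronglyMeasurable fun ω => R (Ψ n ω)) ∧
      (∀ n, HasExpectation (Ψ n) U μ) ∧ IndepSets Ψ μ ∧
      (∀ ω k, ∃ x ∈ (avg Ψ (2 * k + 2) ω).carrier, 1 / 4 ≤ ‖x‖) := by
  obtain ⟨L, hL⟩ := exists_nat_gt (1 / δ)
  have hL0 : (0 : ℝ) < L := lt_trans (by positivity) hL
  have hL1 : (1 : ℝ) ≤ L := by
    have : 0 < L := by exact_mod_cast hL0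
    exact_mod_cast this
  have hLN : 0 < L := by exact_mod_cast hL0
  let M : ℕ → ℕ := fun i => (L * 2 ^ (i + 1)) ^ 2
  have hM : ∀ i, 0 < M i := fun i => by positivity
  have hc : ∀ i, 1 / 2 * (√(M i : ℝ))⁻¹ = 1 / (4 * L) * (1 / 2) ^ i := by
    intro i
    have : ((M i : ℕ) : ℝ) = (L * 2 ^ (i + 1)) ^ 2 := by
      simp only [M]
      push_cast
      ring
    rw [this, Real.sqrt_sq (by positivity), pow_succ, one_div_pow]
    field_simp
    norm_num
  have hs : Summable fun i => 1 / 2 * (√(M i : ℝ))⁻¹ := by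
    simp only [hc]
    exact (summable_geometric_of_lt_one (by norm_num) (by norm_num)).mul_left _
  have hsum : ∑' i, 1 / 2 * (√(M i : ℝ))⁻¹ = 1 / (2 * L) := by
    simp only [hc]
    rw [tsum_mul_left, tsum_geometric_of_lt_one (by norm_num) (by norm_num)]
    field_simp
    norm_num
  obtain ⟨f, hf⟩ := exists_injective_nat (Idx M)
  have he : Orthonormal ℝ (fun p : Idx M => b (f p)) := hb.comp f hf
  have := isProb M hM
  refine ⟨(i : ℕ) → Fin (M i), inferInstance, prodM M, isProb M hM, Psi he hM hs, Utot he hM hs,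
    ?_, ?_, ?_, stronglyMeasurable_Psi he hM hs, hasExpectation_Psi he hM hs, indep_Psi he hM hs,
    avg_large he hM hs⟩
  · exact isCompact_msumSet hs (fun i _ ha => norm_le_Ui he i (hM i) ha)
      (fun i => isCompact_Ui M _ i)
  · intro x hx
    refine (norm_le_Utot he hM hs hx).trans ?_
    rw [hsum, div_le_iff₀ (by positivity)]
    rw [div_lt_iff₀ hδ] at hL
    nlinarith
  · intro n ω x hx
    refine (norm_le_Psi he hM hs n ω hx).trans ?_
    rw [hsum]
    have : 1 / (2 * (L : ℝ)) ≤ 1 / 2 := by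
      rw [div_le_div_iff₀ (by positivity) (by norm_num)]
      nlinarith
    linarith

/-- The real Hilbert space of square summable sequences. -/
abbrev ell2 : Type := lp (fun _ : ℕ => ℝ) 2

theorem exists_orthonormal_ell2 : ∃ b : ℕ → ell2, Orthonormal ℝ b :=
  ⟨_, (HilbertBasis.ofRepr (LinearIsometryEquiv.refl ℝ ell2)).orthonormal⟩

theorem parallelogram_bound {H : Type*} [NormedAddCommGroup H] [InnerProductSpace ℝ H] (x y : H) :
    ‖x + y‖ ^ 2 + ‖x - y‖ ^ 2 = 2 * (‖x‖ ^ 2 + ‖y‖ ^ 2) := by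
  have := parallelogram_law_with_norm ℝ x y
  nlinarith

theorem not_tendsto_of_large {H : Type*} [NormedAddCommGroup H] [InnerProductSpace ℝ H]
    {A : ℕ → BC H} {U : BC H} (hU : ∀ x ∈ U.carrier, ‖x‖ ≤ 1 / 8)
    (hA : ∀ k, ∃ x ∈ (A (2 * k + 2)).carrier, 1 / 4 ≤ ‖x‖) :
    ¬ Tendsto (fun n => Metric.hausdorffDist (A n).carrier U.carrier) atTop (𝓝 0) := by
  intro h
  have h1 : ∀ᶠ n in atTop, Metric.hausdorffDist (A n).carrier U.carrier < 1 / 8 :=
    h.eventually (gt_mem_nhds (by norm_num))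
  obtain ⟨N, hN⟩ := eventually_atTop.1 h1
  obtain ⟨x, hx, hxn⟩ := hA N
  have h2 := hN (2 * N + 2) (by omega)
  have h3 : 1 / 8 ≤ Metric.infDist x U.carrier := by
    rw [Metric.le_infDist U.nonempty]
    intro y hy
    have := norm_sub_norm_le x y
    rw [dist_eq_norm]
    have := hU y hy
    linarith
  have h4 := Metric.infDist_le_hausdorffDist_of_mem hx
    (Metric.hausdorffEDist_ne_top_of_nonempty_of_bounded (A (2 * N + 2)).nonempty U.nonempty
      (A (2 * N + 2)).bounded U.bounded)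
  linarith

theorem norm_le_avg {X : Type*} [NormedAddCommGroup X] [NormedSpace ℝ X] {Ω : Type*}
    [MeasurableSpace Ω] {Ψ : ℕ → Ω → BC X} (h : ∀ n ω, ∀ x ∈ (Ψ n ω).carrier, ‖x‖ ≤ 1) (n : ℕ)
    (ω : Ω) {x : X} (hx : x ∈ (avg Ψ n ω).carrier) : ‖x‖ ≤ 1 := by
  rw [avg, BC.carrier_smul, Set.mem_smul_set] at hx
  obtain ⟨y, hy, rfl⟩ := hx
  obtain ⟨a, ha, rfl⟩ := (mem_sum _ _ _).1 hy
  have h1 : ‖∑ i ∈ Finset.range n, a i‖ ≤ n := by
    refine (norm_sum_le _ _).trans ?_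
    refine (Finset.sum_le_sum fun i hi => h i ω _ (ha i hi)).trans ?_
    simp
  rw [norm_smul, norm_inv, Real.norm_of_nonneg (Nat.cast_nonneg n)]
  rcases Nat.eq_zero_or_pos n with rfl | hn
  · simp
  · have hn' : (0 : ℝ) < n := by exact_mod_cast hn
    rw [inv_mul_le_iff₀ hn', mul_one]
    exact h1

theorem lt_limsup_of_large {X : Type*} [NormedAddCommGroup X] [NormedSpace ℝ X] {Ω : Type*}
    [MeasurableSpace Ω] {Ψ : ℕ → Ω → BC X} (h : ∀ n ω, ∀ x ∈ (Ψ n ω).carrier, ‖x‖ ≤ 1)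
    (ω : Ω) (hA : ∀ k, ∃ x ∈ (avg Ψ (2 * k + 2) ω).carrier, 1 / 4 ≤ ‖x‖) :
    1 / 8 < limsup (fun n => setNorm (avg Ψ n ω).carrier) atTop := by
  have h1 : 1 / 4 ≤ limsup (fun n => setNorm (avg Ψ n ω).carrier) atTop := by
    refine le_limsup_of_frequently_le ?_ ?_
    · rw [frequently_atTop]
      intro N
      obtain ⟨x, hx, hxn⟩ := hA N
      exact ⟨2 * N + 2, by omega, hxn.trans (norm_le_setNorm _ hx)⟩
    · exact isBoundedUnder_of ⟨1, fun n => setNorm_le _ fun a ha => norm_le_avg h n ω ha⟩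
  linarith

end X169.RS
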