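import Mathlib

/-!
Rademacher averages: sums over all sign patterns, the contraction principle for absolute values
and maxima, and the decay of the averages in B-convex spaces.
-/

namespace X169.Rad

open Finset

/-- the real number `1` or `-1` -/
noncomputable def sg (u : ℤˣ) : ℝ := ((u : ℤ) : ℝ)

theorem sg_mul (u v : ℤˣ) : sg (u * v) = sg u * sg v := by simp [sg]

theorem sg_one : sg 1 = 1 := by simp [sg]

theorem sg_neg (u : ℤˣ) : sg (-u) = -sg u := by simp [sg]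

theorem sg_cases (u : ℤˣ) : sg u = 1 ∨ sg u = -1 := by
  rcases Int.units_eq_one_or u with h | h
  · left; rw [h, sg_one]
  · right; rw [h, sg_neg, sg_one]

theorem sg_abs (u : ℤˣ) : |sg u| = 1 := by
  rcases sg_cases u with h | h <;> rw [h] <;> norm_num

section Contraction

set_option linter.unusedSectionVars false

variable {ι T : Type*} [Fintype ι] [DecidableEq ι]

/-- For every choice `τ` the sum over all signs `s` of `∑ i, s i * a i (τ s)` is at most `q`. -/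
def Rle (a : ι → T → ℝ) (q : ℝ) : Prop :=
  ∀ τ : (ι → ℤˣ) → T, ∑ s : ι → ℤˣ, ∑ i, sg (s i) * a i (τ s) ≤ q

theorem Rle.add {a b : ι → T → ℝ} {q r : ℝ} (ha : Rle a q) (hb : Rle b r) :
    Rle (fun i t => a i t + b i t) (q + r) := by
  intro τ
  have := add_le_add (ha τ) (hb τ)
  rw [← Finset.sum_add_distrib] at this
  refine le_trans (le_of_eq ?_) this
  refine Finset.sum_congr rfl fun s _ => ?_
  rw [← Finset.sum_add_distrib]
  refine Finset.sum_congr rfl fun i _ => ?_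
  ring

theorem Rle.neg {a : ι → T → ℝ} {q : ℝ} (ha : Rle a q) : Rle (fun i t => -a i t) q := by
  intro τ
  have h := ha (fun s => τ (-s))
  refine le_trans (le_of_eq ?_) h
  rw [← Equiv.sum_comp (Equiv.neg (ι → ℤˣ))]
  refine Finset.sum_congr rfl fun s _ => ?_
  refine Finset.sum_congr rfl fun i _ => ?_
  simp only [Equiv.neg_apply, Pi.neg_apply, sg_neg]
  ring

theorem Rle.smul {a : ι → T → ℝ} {q : ℝ} (ha : Rle a q) {c : ℝ} (hc : 0 ≤ c) :
    Rle (fun i t => c * a i t) (c * q) := by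
  intro τ
  have h := mul_le_mul_of_nonneg_left (ha τ) hc
  refine le_trans (le_of_eq ?_) h
  rw [Finset.mul_sum]
  refine Finset.sum_congr rfl fun s _ => ?_
  rw [Finset.mul_sum]
  refine Finset.sum_congr rfl fun i _ => ?_
  ring

theorem Rle.sub {a b : ι → T → ℝ} {q r : ℝ} (ha : Rle a q) (hb : Rle b r) :
    Rle (fun i t => a i t - b i t) (q + r) := by
  have := ha.add hb.neg
  simpa only [sub_eq_add_neg] using this

/-- flipping the sign number `i` -/
def fl (i : ι) : (ι → ℤˣ) ≃ (ι → ℤˣ) where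
  toFun s := Function.update s i (-s i)
  invFun s := Function.update s i (-s i)
  left_inv s := by simp
  right_inv s := by simp

theorem fl_fl (i : ι) (s : ι → ℤˣ) : fl i (fl i s) = s := (fl i).left_inv s

theorem fl_same (i : ι) (s : ι → ℤˣ) : fl i s i = -s i := by simp [fl]

theorem fl_ne {i j : ι} (h : j ≠ i) (s : ι → ℤˣ) : fl i s j = s j := by simp [fl, h]

theorem sum_split (i : ι) (f : ι → ℝ) : ∑ j, f j = f i + ∑ j ∈ univ.erase i, f j :=
  (Finset.add_sum_erase _ _ (mem_univ i)).symm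

theorem Rle.single {a b : ι → T → ℝ} {q : ℝ} (ha : Rle a q) (i : ι)
    (hne : ∀ j, j ≠ i → b j = a j) (hi : b i = fun t => |a i t|) : Rle b q := by
  classical
  intro τ
  let cond : (ι → ℤˣ) → Prop := fun s => 0 ≤ sg (s i) * (a i (τ s) - a i (τ (fl i s)))
  have hcond : ∀ s, cond (fl i s) ↔ cond s := by
    intro s
    simp only [cond, fl_fl, fl_same, sg_neg]
    constructor <;> intro h <;> linarith
  let τ' : (ι → ℤˣ) → T := fun s => if cond s then τ s else τ (fl i s)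
  have key : ∀ s : ι → ℤˣ, (∑ j, sg (s j) * b j (τ s)) + (∑ j, sg (fl i s j) * b j (τ (fl i s))) ≤
      (∑ j, sg (s j) * a j (τ' s)) + (∑ j, sg (fl i s j) * a j (τ' (fl i s))) := by
    intro s
    have e1 : ∀ t : T, ∑ j, sg (s j) * b j t =
        sg (s i) * |a i t| + ∑ j ∈ univ.erase i, sg (s j) * a j t := by
      intro t
      rw [sum_split i, hi]
      congr 1
      refine Finset.sum_congr rfl fun j hj => ?_
      rw [hne j (Finset.ne_of_mem_erase hj)]
    have e2 : ∀ t : T, ∑ j, sg (fl i s j) * b j t =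
        -sg (s i) * |a i t| + ∑ j ∈ univ.erase i, sg (s j) * a j t := by
      intro t
      rw [sum_split i, hi, fl_same, sg_neg]
      congr 1
      refine Finset.sum_congr rfl fun j hj => ?_
      rw [hne j (Finset.ne_of_mem_erase hj), fl_ne (Finset.ne_of_mem_erase hj)]
    have e3 : ∀ t : T, ∑ j, sg (s j) * a j t =
        sg (s i) * a i t + ∑ j ∈ univ.erase i, sg (s j) * a j t := by
      intro t
      rw [sum_split i]
    have e4 : ∀ t : T, ∑ j, sg (fl i s j) * a j t =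
        -sg (s i) * a i t + ∑ j ∈ univ.erase i, sg (s j) * a j t := by
      intro t
      rw [sum_split i, fl_same, sg_neg]
      congr 1
      refine Finset.sum_congr rfl fun j hj => ?_
      rw [fl_ne (Finset.ne_of_mem_erase hj)]
    rw [e1, e2, e3, e4]
    have hab := abs_abs_sub_abs_le_abs_sub (a i (τ s)) (a i (τ (fl i s)))
    have hsg := sg_abs (s i)
    have hl : sg (s i) * (|a i (τ s)| - |a i (τ (fl i s))|) ≤
        |sg (s i) * (a i (τ s) - a i (τ (fl i s)))| := by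
      rw [abs_mul, hsg, one_mul]
      refine le_trans (le_abs_self _) ?_
      rw [abs_mul, hsg, one_mul]
      exact hab
    by_cases hc : cond s
    · have h1 : τ' s = τ s := if_pos hc
      have h2 : τ' (fl i s) = τ (fl i s) := if_pos ((hcond s).2 hc)
      rw [h1, h2]
      have h3 : |sg (s i) * (a i (τ s) - a i (τ (fl i s)))| =
          sg (s i) * (a i (τ s) - a i (τ (fl i s))) := abs_of_nonneg hc
      rw [h3] at hl
      linarith
    · have h1 : τ' s = τ (fl i s) := if_neg hc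
      have h2 : τ' (fl i s) = τ s := by
        have : ¬ cond (fl i s) := fun h => hc ((hcond s).1 h)
        have h4 : τ' (fl i s) = τ (fl i (fl i s)) := if_neg this
        rw [h4, fl_fl]
      rw [h1, h2]
      have h3 : |sg (s i) * (a i (τ s) - a i (τ (fl i s)))| =
          -(sg (s i) * (a i (τ s) - a i (τ (fl i s)))) := abs_of_neg (not_le.1 hc)
      rw [h3] at hl
      linarith
  have hsum := Finset.sum_le_sum (s := univ) fun s (_ : s ∈ univ) => key s
  rw [Finset.sum_add_distrib, Finset.sum_add_distrib] at hsum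
  have r1 : ∑ s : ι → ℤˣ, ∑ j, sg (fl i s j) * b j (τ (fl i s)) =
      ∑ s : ι → ℤˣ, ∑ j, sg (s j) * b j (τ s) :=
    Equiv.sum_comp (fl i) (fun s : ι → ℤˣ => ∑ j, sg (s j) * b j (τ s))
  have r2 : ∑ s : ι → ℤˣ, ∑ j, sg (fl i s j) * a j (τ' (fl i s)) =
      ∑ s : ι → ℤˣ, ∑ j, sg (s j) * a j (τ' s) :=
    Equiv.sum_comp (fl i) (fun s : ι → ℤˣ => ∑ j, sg (s j) * a j (τ' s))
  rw [r1, r2] at hsum
  have := ha τ'
  linarith

theorem Rle.abs {a : ι → T → ℝ} {q : ℝ} (ha : Rle a q) : Rle (fun i t => |a i t|) q := by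
  have h : ∀ J : Finset ι, Rle (fun i t => if i ∈ J then |a i t| else a i t) q := by
    intro J
    induction J using Finset.induction_on with
    | empty => simpa using ha
    | insert j J hj ih =>
      refine ih.single j ?_ ?_
      · intro k hk
        funext t
        simp [Finset.mem_insert, hk]
      · funext t
        simp [hj]
  simpa using h univ

theorem Rle.max {a b : ι → T → ℝ} {q r : ℝ} (ha : Rle a q) (hb : Rle b r) :
    Rle (fun i t => Max.max (a i t) (b i t)) (q + r) := by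
  have h1 := (ha.add hb).smul (c := 1 / 2) (by norm_num)
  have h2 := ((ha.sub hb).abs).smul (c := 1 / 2) (by norm_num)
  have h3 := h1.add h2
  have e : (fun i t => Max.max (a i t) (b i t)) =
      (fun i t => 1 / 2 * (a i t + b i t) + 1 / 2 * |a i t - b i t|) := by
    funext i t
    rcases le_total (a i t) (b i t) with h | h
    · rw [max_eq_right h, abs_of_nonpos (sub_nonpos.2 h)]; ring
    · rw [max_eq_left h, abs_of_nonneg (sub_nonneg.2 h)]; ring
  rw [e]
  convert h3 using 1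
  ring

theorem Rle.sup' {κ : Type*} {a : κ → ι → T → ℝ} {q : ℝ} {J : Finset κ} (hJ : J.Nonempty)
    (ha : ∀ j ∈ J, Rle (a j) q) :
    Rle (fun i t => J.sup' hJ (fun j => a j i t)) (J.card * q) := by
  classical
  induction hJ using Finset.Nonempty.cons_induction with
  | singleton j =>
    have := ha j (by simp)
    simpa using this
  | cons j J hj hJ ih =>
    have h1 := ha j (by simp)
    have h2 := ih (fun k hk => ha k (by simp [hk]))
    have h3 := h1.max h2
    have e : (fun i t => (Finset.cons j J hj).sup' (Finset.cons_nonempty hj) (fun j => a j i t)) =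
        (fun i t => Max.max (a j i t) (J.sup' hJ (fun j => a j i t))) := by
      funext i t
      rw [Finset.sup'_cons hJ]
    rw [e]
    convert h3 using 1
    rw [Finset.card_cons]
    push_cast
    ring

theorem Rle.approx {a b : ι → T → ℝ} {q η : ℝ} (ha : Rle a q) (h : ∀ i t, |b i t - a i t| ≤ η) :
    Rle b (q + Fintype.card (ι → ℤˣ) * (Fintype.card ι * η)) := by
  intro τ
  have h1 := ha τ
  have h2 : ∑ s : ι → ℤˣ, ∑ i, sg (s i) * (b i (τ s) - a i (τ s)) ≤
      ∑ s : ι → ℤˣ, ∑ i : ι, η := by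
    refine Finset.sum_le_sum fun s _ => Finset.sum_le_sum fun i _ => ?_
    refine le_trans (le_abs_self _) ?_
    rw [abs_mul, sg_abs, one_mul]
    exact h i (τ s)
  have h3 : ∑ s : ι → ℤˣ, ∑ i : ι, η = Fintype.card (ι → ℤˣ) * (Fintype.card ι * η) := by
    simp only [Finset.sum_const, Finset.card_univ, nsmul_eq_mul]
  rw [h3] at h2
  have h4 : ∑ s : ι → ℤˣ, ∑ i, sg (s i) * b i (τ s) =
      ∑ s : ι → ℤˣ, ∑ i, sg (s i) * a i (τ s) +
      ∑ s : ι → ℤˣ, ∑ i, sg (s i) * (b i (τ s) - a i (τ s)) := by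
    rw [← Finset.sum_add_distrib]
    refine Finset.sum_congr rfl fun s _ => ?_
    rw [← Finset.sum_add_distrib]
    refine Finset.sum_congr rfl fun i _ => ?_
    ring
  linarith

theorem Rle.sum_abs {a : ι → T → ℝ} {q : ℝ} (ha : Rle a q) (t0 : T) (h0 : ∀ i, a i t0 = 0)
    (τ : (ι → ℤˣ) → T) : ∑ s : ι → ℤˣ, |∑ i, sg (s i) * a i (τ s)| ≤ 2 * q := by
  classical
  let w : (ι → ℤˣ) → ℝ := fun s => ∑ i, sg (s i) * a i (τ s)
  let τ1 : (ι → ℤˣ) → T := fun s => if 0 ≤ w s then τ s else t0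
  let τ2 : (ι → ℤˣ) → T := fun s => if 0 ≤ w s then t0 else τ s
  have h1 := ha τ1
  have h2 := ha.neg τ2
  have key : ∀ s : ι → ℤˣ, |∑ i, sg (s i) * a i (τ s)| =
      ∑ i, sg (s i) * a i (τ1 s) + ∑ i, sg (s i) * -a i (τ2 s) := by
    intro s
    by_cases hs : 0 ≤ w s
    · have e1 : τ1 s = τ s := if_pos hs
      have e2 : τ2 s = t0 := if_pos hs
      rw [e1, e2]
      simp only [h0, neg_zero, mul_zero, Finset.sum_const_zero, add_zero]
      exact abs_of_nonneg hs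
    · have e1 : τ1 s = t0 := if_neg hs
      have e2 : τ2 s = τ s := if_neg hs
      rw [e1, e2]
      simp only [h0, mul_zero, Finset.sum_const_zero, zero_add, mul_neg, Finset.sum_neg_distrib]
      exact abs_of_neg (not_le.1 hs)
  rw [Finset.sum_congr rfl fun s _ => key s, Finset.sum_add_distrib]
  linarith

end Contraction

section BConvex

variable {X : Type*} [NormedAddCommGroup X] [NormedSpace ℝ X]

/-- `E ‖∑ ε_i x_i‖² ≤ c n ∑ ‖x_i‖²` for families indexed by `ι`, `n` the number of indices. -/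
def Good (ι : Type*) [Fintype ι] [DecidableEq ι] (X : Type*) [NormedAddCommGroup X]
    [NormedSpace ℝ X] (c : ℝ) : Prop :=
  ∀ x : ι → X, ∑ s : ι → ℤˣ, ‖∑ i, sg (s i) • x i‖ ^ 2 ≤
    Fintype.card (ι → ℤˣ) * (c * Fintype.card ι * ∑ i, ‖x i‖ ^ 2)

theorem Good.congr {ι κ : Type*} [Fintype ι] [DecidableEq ι] [Fintype κ] [DecidableEq κ]
    (e : ι ≃ κ) {c : ℝ} (h : Good ι X c) : Good κ X c := by
  intro x
  have h1 := h (x ∘ e)
  have hc : Fintype.card ι = Fintype.card κ := Fintype.card_congr e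
  have hc' : Fintype.card (ι → ℤˣ) = Fintype.card (κ → ℤˣ) :=
    Fintype.card_congr (e.arrowCongr (Equiv.refl _))
  rw [hc, hc'] at h1
  have e1 : ∑ i, ‖(x ∘ e) i‖ ^ 2 = ∑ k, ‖x k‖ ^ 2 :=
    Equiv.sum_comp e (fun k => ‖x k‖ ^ 2)
  rw [e1] at h1
  refine le_trans (le_of_eq ?_) h1
  rw [← Equiv.sum_comp (e.arrowCongr (Equiv.refl ℤˣ))]
  refine Finset.sum_congr rfl fun s _ => ?_
  congr 2
  rw [← Equiv.sum_comp e]
  refine Finset.sum_congr rfl fun i _ => ?_
  simp

theorem Good.prod {ι κ : Type*} [Fintype ι] [DecidableEq ι] [Fintype κ] [DecidableEq κ]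
    {c c' : ℝ} (hc : 0 ≤ c) (h : Good ι X c) (h' : Good κ X c') : Good (ι × κ) X (c * c') := by
  intro x
  set S := Fintype.card (ι × κ → ℤˣ) with hS
  set R := Fintype.card (ι → ℤˣ) with hR
  set T := Fintype.card (κ → ℤˣ) with hT
  have hRpos : (0 : ℝ) < R := by
    rw [hR]; exact_mod_cast Fintype.card_pos
  have hTpos : (0 : ℝ) < T := by
    rw [hT]; exact_mod_cast Fintype.card_pos
  -- first step
  let y : ι → (ι × κ → ℤˣ) → X := fun i s => ∑ j, sg (s (i, j)) • x (i, j)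
  have step1 : ∀ r : ι → ℤˣ, ∑ s : ι × κ → ℤˣ, ‖∑ p, sg (s p) • x p‖ ^ 2 =
      ∑ s : ι × κ → ℤˣ, ‖∑ i, sg (r i) • y i s‖ ^ 2 := by
    intro r
    rw [← Equiv.sum_comp (Equiv.mulLeft (fun p : ι × κ => r p.1))]
    refine Finset.sum_congr rfl fun s _ => ?_
    congr 2
    rw [Fintype.sum_prod_type]
    refine Finset.sum_congr rfl fun i _ => ?_
    simp only [y, Finset.smul_sum]
    refine Finset.sum_congr rfl fun j _ => ?_
    simp only [Equiv.coe_mulLeft, Pi.mul_apply, sg_mul, mul_smul]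
  have step2 : (R : ℝ) * ∑ s : ι × κ → ℤˣ, ‖∑ p, sg (s p) • x p‖ ^ 2 ≤
      ∑ s : ι × κ → ℤˣ, (R : ℝ) * (c * Fintype.card ι * ∑ i, ‖y i s‖ ^ 2) := by
    have e1 : (R : ℝ) * ∑ s : ι × κ → ℤˣ, ‖∑ p, sg (s p) • x p‖ ^ 2 =
        ∑ r : ι → ℤˣ, ∑ s : ι × κ → ℤˣ, ‖∑ i, sg (r i) • y i s‖ ^ 2 := by
      rw [← Finset.sum_congr rfl fun r _ => step1 r]
      rw [Finset.sum_const, Finset.card_univ, nsmul_eq_mul]
    rw [e1, Finset.sum_comm]
    exact Finset.sum_le_sum fun s _ => h (fun i => y i s)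
  have step3 : ∑ s : ι × κ → ℤˣ, ‖∑ p, sg (s p) • x p‖ ^ 2 ≤
      c * Fintype.card ι * ∑ i, ∑ s : ι × κ → ℤˣ, ‖y i s‖ ^ 2 := by
    rw [← Finset.mul_sum] at step2
    have := le_of_mul_le_mul_left step2 hRpos
    refine this.trans (le_of_eq ?_)
    rw [← Finset.mul_sum, Finset.sum_comm (f := fun (s : ι × κ → ℤˣ) (i : ι) => ‖y i s‖ ^ 2)]
  -- second step
  have step4 : ∀ i, ∑ s : ι × κ → ℤˣ, ‖y i s‖ ^ 2 ≤
      S * (c' * Fintype.card κ * ∑ j, ‖x (i, j)‖ ^ 2) := by
    intro i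
    have f1 : ∀ t : κ → ℤˣ, ∑ s : ι × κ → ℤˣ, ‖y i s‖ ^ 2 =
        ∑ s : ι × κ → ℤˣ, ‖∑ j, sg (t j) • (sg (s (i, j)) • x (i, j))‖ ^ 2 := by
      intro t
      rw [← Equiv.sum_comp (Equiv.mulLeft (fun p : ι × κ => t p.2))]
      refine Finset.sum_congr rfl fun s _ => ?_
      congr 2
      refine Finset.sum_congr rfl fun j _ => ?_
      simp only [Equiv.coe_mulLeft, Pi.mul_apply, sg_mul, mul_smul]
    have f2 : (T : ℝ) * ∑ s : ι × κ → ℤˣ, ‖y i s‖ ^ 2 ≤
        ∑ s : ι × κ → ℤˣ, (T : ℝ) * (c' * Fintype.card κ * ∑ j, ‖x (i, j)‖ ^ 2) := by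
      have e1 : (T : ℝ) * ∑ s : ι × κ → ℤˣ, ‖y i s‖ ^ 2 =
          ∑ t : κ → ℤˣ, ∑ s : ι × κ → ℤˣ,
            ‖∑ j, sg (t j) • (sg (s (i, j)) • x (i, j))‖ ^ 2 := by
        rw [← Finset.sum_congr rfl fun t _ => f1 t]
        rw [Finset.sum_const, Finset.card_univ, nsmul_eq_mul]
      rw [e1, Finset.sum_comm]
      refine Finset.sum_le_sum fun s _ => ?_
      have h9 := h' (fun j => sg (s (i, j)) • x (i, j))
      have e9 : ∑ j, ‖sg (s (i, j)) • x (i, j)‖ ^ 2 = ∑ j, ‖x (i, j)‖ ^ 2 := by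
        refine Finset.sum_congr rfl fun j _ => ?_
        rw [norm_smul, Real.norm_eq_abs, sg_abs, one_mul]
      rw [e9] at h9
      exact h9
    rw [← Finset.mul_sum] at f2
    have := le_of_mul_le_mul_left f2 hTpos
    refine this.trans (le_of_eq ?_)
    rw [Finset.sum_const, Finset.card_univ, nsmul_eq_mul]
  refine step3.trans ?_
  have h5 : ∑ i, ∑ s : ι × κ → ℤˣ, ‖y i s‖ ^ 2 ≤
      ∑ i, S * (c' * Fintype.card κ * ∑ j, ‖x (i, j)‖ ^ 2) :=
    Finset.sum_le_sum fun i _ => step4 i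
  have h6 : 0 ≤ c * Fintype.card ι := by positivity
  refine (mul_le_mul_of_nonneg_left h5 h6).trans (le_of_eq ?_)
  rw [← Finset.mul_sum, ← Finset.mul_sum, Fintype.card_prod, Fintype.sum_prod_type]
  push_cast
  ring

theorem Good.pow {k : ℕ} {c : ℝ} (hc : 0 ≤ c) (h : Good (Fin k) X c) :
    ∀ j : ℕ, 0 < j → Good (Fin (k ^ j)) X (c ^ j) := by
  intro j hj
  induction j with
  | zero => omega
  | succ j ih =>
    rcases Nat.eq_zero_or_pos j with rfl | hj
    · have := h.congr (finCongr (pow_one k).symm)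
      simpa using this
    · have := (Good.prod (pow_nonneg hc j) (ih hj) h).congr finProdFinEquiv
      rw [← pow_succ] at this
      exact this.congr (finCongr (pow_succ k j).symm)

/-- `X` is B-convex. -/
def BConv (X : Type*) [NormedAddCommGroup X] [NormedSpace ℝ X] : Prop :=
  ∃ k : ℕ, 2 ≤ k ∧ ∃ ε : ℝ, 0 < ε ∧ ∀ x : Fin k → X, (∀ i, ‖x i‖ ≤ 1) →
    ∃ s : Fin k → ℝ, (∀ i, s i = 1 ∨ s i = -1) ∧ ‖∑ i, s i • x i‖ ≤ k * (1 - ε)

/-- a real sign as a unit -/
theorem exists_sg {r : ℝ} (h : r = 1 ∨ r = -1) : ∃ u : ℤˣ, sg u = r := by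
  rcases h with h | h
  · exact ⟨1, by rw [sg_one, h]⟩
  · exact ⟨-1, by rw [sg_neg, sg_one, h]⟩

theorem norm_sum_sg_le {ι : Type*} [Fintype ι] (x : ι → X) (s : ι → ℤˣ) :
    ‖∑ i, sg (s i) • x i‖ ≤ ∑ i, ‖x i‖ := by
  refine (norm_sum_le _ _).trans (le_of_eq ?_)
  refine Finset.sum_congr rfl fun i _ => ?_
  rw [norm_smul, Real.norm_eq_abs, sg_abs, one_mul]

theorem variance_ineq {k : ℕ} (a : Fin k → ℝ) (i0 : Fin k) :
    ∑ j, (a i0 - a j) ^ 2 ≤ k * ∑ i, a i ^ 2 - (∑ i, a i) ^ 2 := by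
  have h1 : 2 * (k * ∑ i, a i ^ 2 - (∑ i, a i) ^ 2) = ∑ i, ∑ j, (a i - a j) ^ 2 := by
    have e : ∀ i j, (a i - a j) ^ 2 = a i ^ 2 + a j ^ 2 - 2 * (a i * a j) := fun i j => by ring
    simp only [e, Finset.sum_sub_distrib, Finset.sum_add_distrib, ← Finset.mul_sum,
      Finset.sum_const, Finset.card_univ, Fintype.card_fin, nsmul_eq_mul, ← Finset.sum_mul]
    ring
  have h2 : 2 * ∑ j, (a i0 - a j) ^ 2 ≤ ∑ i, ∑ j, (a i - a j) ^ 2 := by
    classical
    have h3 : ∑ i, ∑ j, (a i - a j) ^ 2 = ∑ j, (a i0 - a j) ^ 2 +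
        ∑ i ∈ univ.erase i0, ∑ j, (a i - a j) ^ 2 := (Finset.add_sum_erase _ _ (mem_univ i0)).symm
    have h4 : ∑ i ∈ univ.erase i0, (a i0 - a i) ^ 2 ≤ ∑ i ∈ univ.erase i0, ∑ j, (a i - a j) ^ 2 := by
      refine Finset.sum_le_sum fun i _ => ?_
      have := Finset.single_le_sum (f := fun j => (a i - a j) ^ 2) (fun j _ => sq_nonneg _)
        (mem_univ i0)
      refine le_trans (le_of_eq ?_) this
      ring
    have h5 : ∑ i ∈ univ.erase i0, (a i0 - a i) ^ 2 = ∑ j, (a i0 - a j) ^ 2 := by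
      rw [← Finset.add_sum_erase _ (fun i => (a i0 - a i) ^ 2) (mem_univ i0)]
      simp
    linarith
  linarith

theorem BConv.good (h : BConv X) : ∃ k : ℕ, 2 ≤ k ∧ ∃ c : ℝ, 0 ≤ c ∧ c < 1 ∧ Good (Fin k) X c := by
  obtain ⟨k, hk, ε, hε, H⟩ := h
  have hk0 : (0 : ℝ) < k := by exact_mod_cast (by omega : 0 < k)
  have hε1 : ε ≤ 1 := by
    by_contra hc
    push Not at hc
    obtain ⟨s, _, hs⟩ := H (fun _ => 0) (by simp)
    simp only [smul_zero, Finset.sum_const_zero, norm_zero] at hs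
    have : (k : ℝ) * (1 - ε) < 0 := mul_neg_of_pos_of_neg hk0 (by linarith)
    linarith
  set S : ℝ := (Fintype.card (Fin k → ℤˣ) : ℝ) with hS
  have hS1 : 1 ≤ S := by
    rw [hS]
    exact_mod_cast Fintype.card_pos
  have hS0 : 0 < S := by linarith
  set g : ℝ := 1 - (1 - ε / 2) ^ 2 with hg
  have hg0 : 0 < g := by rw [hg]; nlinarith
  have hg1 : g ≤ 1 := by rw [hg]; nlinarith [sq_nonneg (1 - ε / 2)]
  set c1 : ℝ := 1 - g / S with hc1
  set c2 : ℝ := 1 - ε ^ 2 / (4 * k) with hc2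
  have hc1' : c1 < 1 := by
    rw [hc1]
    have : 0 < g / S := by positivity
    linarith
  have hc10 : 0 ≤ c1 := by
    rw [hc1]
    have : g / S ≤ 1 := by
      rw [div_le_one hS0]
      linarith
    linarith
  have hc2' : c2 < 1 := by
    rw [hc2]
    have : 0 < ε ^ 2 / (4 * k) := by positivity
    linarith
  refine ⟨k, hk, Max.max c1 c2, le_trans hc10 (le_max_left _ _), max_lt hc1' hc2', ?_⟩
  intro x
  rw [Fintype.card_fin]
  set Q : ℝ := ∑ i, ‖x i‖ ^ 2 with hQ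
  have hQ0 : 0 ≤ Q := Finset.sum_nonneg fun i _ => sq_nonneg _
  have hcs : (∑ i, ‖x i‖) ^ 2 ≤ k * Q := by
    have := sq_sum_le_card_mul_sum_sq (s := (univ : Finset (Fin k))) (f := fun i => ‖x i‖)
    simpa [Finset.card_univ] using this
  have hN0 : 0 ≤ ∑ i, ‖x i‖ := Finset.sum_nonneg fun i _ => norm_nonneg _
  -- the maximal norm
  have hne : (univ : Finset (Fin k)).Nonempty := ⟨⟨0, by omega⟩, mem_univ _⟩
  obtain ⟨i0, -, hmax⟩ := Finset.exists_max_image univ (fun i => ‖x i‖) hne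
  set M : ℝ := ‖x i0‖ with hM
  have hM0 : 0 ≤ M := norm_nonneg _
  have hall : ∀ s : Fin k → ℤˣ, ‖∑ i, sg (s i) • x i‖ ^ 2 ≤ (∑ i, ‖x i‖) ^ 2 := fun s =>
    pow_le_pow_left₀ (norm_nonneg _) (norm_sum_sg_le x s) 2
  by_cases hcase : (1 - ε / 2) * (k * M) ≤ ∑ i, ‖x i‖
  · -- one good sign
    have hgood : ∃ s0 : Fin k → ℤˣ, ‖∑ i, sg (s0 i) • x i‖ ≤ k * (1 - ε) * M := by
      rcases eq_or_lt_of_le hM0 with h0 | h0
      · refine ⟨fun _ => 1, ?_⟩
        have hz : ∀ i, x i = 0 := fun i => by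
          have := hmax i (mem_univ i)
          rw [← norm_le_zero_iff]
          linarith
        simp [hz, ← h0]
      · obtain ⟨s, hs1, hs2⟩ := H (fun i => M⁻¹ • x i) (by
          intro i
          rw [norm_smul, norm_inv, Real.norm_of_nonneg hM0, inv_mul_le_iff₀ h0, mul_one]
          exact hmax i (mem_univ i))
        choose u hu using fun i => exists_sg (hs1 i)
        refine ⟨u, ?_⟩
        have e : ∑ i, s i • M⁻¹ • x i = M⁻¹ • ∑ i, sg (u i) • x i := by
          rw [Finset.smul_sum]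
          refine Finset.sum_congr rfl fun i _ => ?_
          rw [hu, smul_comm]
        rw [e, norm_smul, norm_inv, Real.norm_of_nonneg hM0, inv_mul_le_iff₀ h0] at hs2
        linarith
    obtain ⟨s0, hs0⟩ := hgood
    have hs0' : ‖∑ i, sg (s0 i) • x i‖ ^ 2 ≤ (1 - g) * (∑ i, ‖x i‖) ^ 2 := by
      have h1 : ‖∑ i, sg (s0 i) • x i‖ ≤ (1 - ε / 2) * ∑ i, ‖x i‖ := by
        refine hs0.trans ?_
        have h2 : (1 - ε / 2) * ((1 - ε / 2) * (k * M)) ≤ (1 - ε / 2) * ∑ i, ‖x i‖ :=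
          mul_le_mul_of_nonneg_left hcase (by linarith)
        refine le_trans ?_ h2
        have h3 : 0 ≤ (k : ℝ) * M := by positivity
        nlinarith [mul_nonneg h3 (sq_nonneg ε)]
      have h2 := pow_le_pow_left₀ (norm_nonneg _) h1 2
      rw [mul_pow] at h2
      have h3 : (1 - ε / 2) ^ 2 = 1 - g := by rw [hg]; ring
      rw [h3] at h2
      exact h2
    classical
    have hsum : ∑ s : Fin k → ℤˣ, ‖∑ i, sg (s i) • x i‖ ^ 2 ≤
        (S - g) * (∑ i, ‖x i‖) ^ 2 := by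
      rw [← Finset.add_sum_erase _ _ (mem_univ s0)]
      have h1 : ∑ s ∈ univ.erase s0, ‖∑ i, sg (s i) • x i‖ ^ 2 ≤
          ∑ s ∈ univ.erase s0, (∑ i, ‖x i‖) ^ 2 := Finset.sum_le_sum fun s _ => hall s
      rw [Finset.sum_const, Finset.card_erase_of_mem (mem_univ _), Finset.card_univ,
        nsmul_eq_mul, Nat.cast_sub Fintype.card_pos, Nat.cast_one, ← hS] at h1
      linarith
    refine hsum.trans ?_
    have hSg : 0 ≤ S - g := by linarith
    refine (mul_le_mul_of_nonneg_left hcs hSg).trans ?_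
    have e1 : (S - g) * (k * Q) = S * (c1 * k * Q) := by
      rw [hc1]
      field_simp
    rw [e1]
    have : c1 * k * Q ≤ Max.max c1 c2 * k * Q := by
      have h1 : c1 * (k * Q) ≤ Max.max c1 c2 * (k * Q) :=
        mul_le_mul_of_nonneg_right (le_max_left _ _) (by positivity)
      linarith
    exact mul_le_mul_of_nonneg_left this hS0.le
  · -- the norms are not nearly equal
    push Not at hcase
    have h1 := variance_ineq (fun i => ‖x i‖) i0
    have h2 : (∑ j, (M - ‖x j‖)) ^ 2 ≤ k * ∑ j, (M - ‖x j‖) ^ 2 := by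
      have := sq_sum_le_card_mul_sum_sq (s := (univ : Finset (Fin k))) (f := fun j => M - ‖x j‖)
      simpa [Finset.card_univ] using this
    have h3 : ∑ j, (M - ‖x j‖) = k * M - ∑ j, ‖x j‖ := by
      rw [Finset.sum_sub_distrib, Finset.sum_const, Finset.card_univ, Fintype.card_fin,
        nsmul_eq_mul]
    rw [h3] at h2
    have h4 : ε / 2 * (k * M) ≤ k * M - ∑ j, ‖x j‖ := by linarith
    have h5 : (ε / 2 * (k * M)) ^ 2 ≤ (k * M - ∑ j, ‖x j‖) ^ 2 :=
      pow_le_pow_left₀ (by positivity) h4 2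
    have h6 : Q ≤ k * M ^ 2 := by
      rw [hQ]
      have : ∑ i : Fin k, ‖x i‖ ^ 2 ≤ ∑ i : Fin k, M ^ 2 :=
        Finset.sum_le_sum fun i _ => pow_le_pow_left₀ (norm_nonneg _) (hmax i (mem_univ i)) 2
      rw [Finset.sum_const, Finset.card_univ, Fintype.card_fin, nsmul_eq_mul] at this
      exact this
    have h7 : (∑ i, ‖x i‖) ^ 2 ≤ c2 * k * Q := by
      have h8 : (ε / 2 * (k * M)) ^ 2 ≤ k * (k * Q - (∑ i, ‖x i‖) ^ 2) := by
        refine h5.trans (h2.trans ?_)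
        exact mul_le_mul_of_nonneg_left h1 hk0.le
      have h9 : ε ^ 2 / 4 * k * Q ≤ (ε / 2 * (k * M)) ^ 2 := by
        have : ε ^ 2 / 4 * k * Q ≤ ε ^ 2 / 4 * k * (k * M ^ 2) :=
          mul_le_mul_of_nonneg_left h6 (by positivity)
        refine this.trans (le_of_eq ?_)
        ring
      have h10 : ε ^ 2 / 4 * Q ≤ k * Q - (∑ i, ‖x i‖) ^ 2 := by
        have : (k : ℝ) * (ε ^ 2 / 4 * Q) ≤ k * (k * Q - (∑ i, ‖x i‖) ^ 2) := by
          refine le_trans (le_of_eq ?_) (h9.trans h8)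
          ring
        exact le_of_mul_le_mul_left this hk0
      have e2 : c2 * k * Q = k * Q - ε ^ 2 / 4 * Q := by
        rw [hc2]
        field_simp
      rw [e2]
      linarith
    have h8 : ∑ s : Fin k → ℤˣ, ‖∑ i, sg (s i) • x i‖ ^ 2 ≤
        ∑ s : Fin k → ℤˣ, (Max.max c1 c2 * k * Q) := by
      refine Finset.sum_le_sum fun s _ => (hall s).trans (h7.trans ?_)
      have h1 : c2 * (k * Q) ≤ Max.max c1 c2 * (k * Q) :=
        mul_le_mul_of_nonneg_right (le_max_right _ _) (by positivity)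
      linarith
    rw [Finset.sum_const, Finset.card_univ, nsmul_eq_mul] at h8
    exact h8

/-- In a B-convex space the Rademacher averages of bounded vectors are small for some length. -/
theorem BConv.flat (h : BConv X) {δ : ℝ} (hδ : 0 < δ) : ∃ m : ℕ, 0 < m ∧
    ∀ (R : ℝ) (x : Fin m → X), 0 ≤ R → (∀ i, ‖x i‖ ≤ R) →
      ∑ s : Fin m → ℤˣ, ‖∑ i, sg (s i) • x i‖ ≤ Fintype.card (Fin m → ℤˣ) * (δ * m * R) := by
  obtain ⟨k, hk, c, hc0, hc1, H⟩ := h.good
  obtain ⟨j, hj⟩ := exists_pow_lt_of_lt_one (pow_pos hδ 2) hc1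
  have hj' : c ^ (j + 1) ≤ δ ^ 2 := by
    refine le_trans ?_ hj.le
    rw [pow_succ]
    exact mul_le_of_le_one_right (pow_nonneg hc0 j) hc1.le
  have G := H.pow hc0 (j + 1) (Nat.succ_pos j)
  have hm0 : 0 < k ^ (j + 1) := Nat.pow_pos (by omega)
  revert G hm0
  generalize k ^ (j + 1) = m
  intro G hm0
  refine ⟨m, hm0, ?_⟩
  intro R x hR hx
  have g := G x
  rw [Fintype.card_fin] at g
  set S : ℝ := (Fintype.card (Fin m → ℤˣ) : ℝ) with hS
  have hS0 : 0 ≤ S := by rw [hS]; positivity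
  have h1 : ∑ i, ‖x i‖ ^ 2 ≤ m * R ^ 2 := by
    have : ∑ i, ‖x i‖ ^ 2 ≤ ∑ i : Fin m, R ^ 2 :=
      Finset.sum_le_sum fun i _ => pow_le_pow_left₀ (norm_nonneg _) (hx i) 2
    simpa [Finset.card_univ] using this
  have h2 : ∑ s : Fin m → ℤˣ, ‖∑ i, sg (s i) • x i‖ ^ 2 ≤ S * (δ * m * R) ^ 2 := by
    refine g.trans ?_
    refine mul_le_mul_of_nonneg_left ?_ hS0
    have h3 : c ^ (j + 1) * m * ∑ i, ‖x i‖ ^ 2 ≤ c ^ (j + 1) * m * (m * R ^ 2) :=
      mul_le_mul_of_nonneg_left h1 (by positivity)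
    refine h3.trans ?_
    have h4 : c ^ (j + 1) * (m * (m * R ^ 2)) ≤ δ ^ 2 * (m * (m * R ^ 2)) :=
      mul_le_mul_of_nonneg_right hj' (by positivity)
    calc c ^ (j + 1) * m * (m * R ^ 2) = c ^ (j + 1) * (m * (m * R ^ 2)) := by ring
      _ ≤ δ ^ 2 * (m * (m * R ^ 2)) := h4
      _ = _ := by ring
  have h3 : (∑ s : Fin m → ℤˣ, ‖∑ i, sg (s i) • x i‖) ^ 2 ≤
      S * ∑ s : Fin m → ℤˣ, ‖∑ i, sg (s i) • x i‖ ^ 2 := by
    have := sq_sum_le_card_mul_sum_sq (s := (univ : Finset (Fin m → ℤˣ)))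
      (f := fun s => ‖∑ i, sg (s i) • x i‖)
    simpa only [Finset.card_univ] using this
  have h4 : (∑ s : Fin m → ℤˣ, ‖∑ i, sg (s i) • x i‖) ^ 2 ≤ (S * (δ * m * R)) ^ 2 := by
    refine h3.trans ((mul_le_mul_of_nonneg_left h2 hS0).trans (le_of_eq ?_))
    ring
  exact le_of_sq_le_sq h4 (by positivity)

end BConvex

end X169.Rad
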