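import Mathlib
import Pool.Agent.X169.Rad

/-!
Strong law for bounded independent Banach space valued random vectors whose blocks have small
Rademacher averages.
-/

namespace X169.RadProb

open MeasureTheory ProbabilityTheory Filter Topology Set X169.Rad
open scoped ENNReal

section Scalar

variable {Ω : Type*} [MeasurableSpace Ω] {μ : Measure Ω} [IsProbabilityMeasure μ]

theorem tendsto_nat_sqrt : Tendsto Nat.sqrt atTop atTop := by
  rw [tendsto_atTop_atTop]
  intro b
  refine ⟨b * b, fun a ha => ?_⟩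
  exact Nat.le_sqrt.2 ha

/-- Strong law for uniformly bounded pairwise independent real random variables. -/
theorem slln_scalar (B : ℕ → Ω → ℝ) (hm : ∀ n, Measurable (B n)) {C : ℝ} (hC : 0 ≤ C)
    (hB : ∀ n, ∀ᵐ ω ∂μ, |B n ω| ≤ C)
    (hind : Pairwise fun i j => IndepFun (B i) (B j) μ) :
    ∀ᵐ ω ∂μ, Tendsto (fun n : ℕ => (∑ i ∈ Finset.range n, (B i ω - ∫ ω, B i ω ∂μ)) / n) atTop
      (𝓝 0) := by
  have hL2 : ∀ n, MemLp (B n) 2 μ := fun n =>
    MemLp.of_bound (hm n).aestronglyMeasurable C (by simpa only [Real.norm_eq_abs] using hB n)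
  have hint : ∀ n, Integrable (B n) μ := fun n => (hL2 n).integrable (by norm_num)
  set T : ℕ → Ω → ℝ := fun n ω => ∑ i ∈ Finset.range n, (B i ω - ∫ ω, B i ω ∂μ) with hT
  have hTm : ∀ n, Measurable (T n) := fun n =>
    Finset.measurable_sum _ fun i _ => (hm i).sub_const _
  have hTi : ∀ n, ∀ᵐ ω ∂μ, |T n ω| ≤ n * (2 * C) := by
    intro n
    filter_upwards [ae_all_iff.2 hB] with ω hω
    refine (Finset.abs_sum_le_sum_abs _ _).trans ?_
    have : ∀ i ∈ Finset.range n, |B i ω - ∫ ω, B i ω ∂μ| ≤ 2 * C := by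
      intro i _
      have h1 := hω i
      have h2 : |∫ ω, B i ω ∂μ| ≤ C := by
        have := norm_integral_le_of_norm_le_const (μ := μ) (f := B i) (C := C)
          (by simpa only [Real.norm_eq_abs] using hB i)
        simpa using this
      have h3 := abs_sub (B i ω) (∫ ω, B i ω ∂μ)
      linarith
    refine (Finset.sum_le_sum this).trans (le_of_eq ?_)
    rw [Finset.sum_const, Finset.card_range, nsmul_eq_mul]
  have hvar : ∀ n, ∫ ω, (T n ω) ^ 2 ∂μ ≤ n * C ^ 2 := by
    intro n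
    have h1 : Var[∑ i ∈ Finset.range n, B i; μ] = ∑ i ∈ Finset.range n, Var[B i; μ] :=
      IndepFun.variance_sum (fun i _ => hL2 i) (fun i _ j _ hij => hind hij)
    have h2 : Var[∑ i ∈ Finset.range n, B i; μ] = ∫ ω, (T n ω) ^ 2 ∂μ := by
      rw [variance_eq_integral (Finset.aemeasurable_sum _ fun i _ => (hm i).aemeasurable)]
      refine integral_congr_ae (Eventually.of_forall fun ω => ?_)
      simp only [hT, Finset.sum_apply]
      rw [integral_finsetSum _ fun i _ => hint i, Finset.sum_sub_distrib]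
    rw [← h2, h1]
    have h3 : ∀ i ∈ Finset.range n, Var[B i; μ] ≤ C ^ 2 := by
      intro i _
      have := variance_le_sq_of_bounded (μ := μ) (a := -C) (b := C) (X := B i)
        (by
          filter_upwards [hB i] with ω hω
          exact abs_le.1 hω) (hm i).aemeasurable
      refine this.trans (le_of_eq ?_)
      ring
    refine (Finset.sum_le_sum h3).trans (le_of_eq ?_)
    rw [Finset.sum_const, Finset.card_range, nsmul_eq_mul]
  -- the squares
  set F : ℕ → Ω → ℝ≥0∞ := fun k ω =>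
    ENNReal.ofReal ((T ((k + 1) ^ 2) ω / ((k : ℝ) + 1) ^ 2) ^ 2) with hF
  have hFm : ∀ k, Measurable (F k) := fun k =>
    ENNReal.measurable_ofReal.comp (((hTm _).div_const _).pow_const 2)
  have hFi : ∀ k, ∫⁻ ω, F k ω ∂μ ≤ ENNReal.ofReal (C ^ 2 * (1 / ((k : ℝ) + 1) ^ 2)) := by
    intro k
    have hk : (0 : ℝ) < (k : ℝ) + 1 := by positivity
    have hint2 : Integrable (fun ω => (T ((k + 1) ^ 2) ω / ((k : ℝ) + 1) ^ 2) ^ 2) μ := by
      refine Integrable.of_bound (((hTm _).div_const _).pow_const 2).aestronglyMeasurable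
        ((((((k + 1) ^ 2 : ℕ) : ℝ) * (2 * C)) / ((k : ℝ) + 1) ^ 2) ^ 2) ?_
      filter_upwards [hTi ((k + 1) ^ 2)] with ω hω
      rw [Real.norm_eq_abs, abs_pow, abs_div, abs_of_pos (pow_pos hk 2)]
      gcongr
    rw [← ofReal_integral_eq_lintegral_ofReal hint2 (Eventually.of_forall fun ω => sq_nonneg _)]
    apply ENNReal.ofReal_le_ofReal
    have e : ∫ ω, (T ((k + 1) ^ 2) ω / ((k : ℝ) + 1) ^ 2) ^ 2 ∂μ =
        (∫ ω, (T ((k + 1) ^ 2) ω) ^ 2 ∂μ) / (((k : ℝ) + 1) ^ 2) ^ 2 := by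
      rw [← integral_div]
      refine integral_congr_ae (Eventually.of_forall fun ω => ?_)
      simp only [div_pow]
    rw [e, div_le_iff₀ (by positivity)]
    refine (hvar _).trans (le_of_eq ?_)
    push_cast
    field_simp
  have hsum : ∑' k, ∫⁻ ω, F k ω ∂μ ≠ ∞ := by
    have hs : Summable (fun k : ℕ => C ^ 2 * (1 / ((k : ℝ) + 1) ^ 2)) := by
      apply Summable.mul_left
      have := (summable_nat_add_iff 1).2 (Real.summable_one_div_nat_pow.2 (by norm_num : 1 < 2))
      simpa using this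
    refine ne_top_of_le_ne_top ?_ (ENNReal.tsum_le_tsum hFi)
    exact hs.tsum_ofReal_ne_top
  have hae : ∀ᵐ ω ∂μ, ∑' k, F k ω < ∞ := by
    refine ae_lt_top' (AEMeasurable.ennreal_tsum fun k => (hFm k).aemeasurable) ?_
    rw [lintegral_tsum fun k => (hFm k).aemeasurable]
    exact hsum
  filter_upwards [hae, ae_all_iff.2 hB] with ω hω hBω
  have h0 : Tendsto (fun k => F k ω) atTop (𝓝 0) :=
    ENNReal.tendsto_atTop_zero_of_tsum_ne_top hω.ne
  have h1 : Tendsto (fun k : ℕ => (T ((k + 1) ^ 2) ω / ((k : ℝ) + 1) ^ 2) ^ 2) atTop (𝓝 0) := by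
    have := (ENNReal.tendsto_toReal ENNReal.zero_ne_top).comp h0
    simp only [ENNReal.toReal_zero] at this
    refine this.congr fun k => ?_
    simp only [hF, Function.comp_apply]
    rw [ENNReal.toReal_ofReal (sq_nonneg _)]
  have h2 : Tendsto (fun k : ℕ => |T ((k + 1) ^ 2) ω| / ((k : ℝ) + 1) ^ 2) atTop (𝓝 0) := by
    have := (Real.continuous_sqrt.tendsto 0).comp h1
    rw [Real.sqrt_zero] at this
    refine this.congr fun k => ?_
    simp only [Function.comp_apply]
    rw [Real.sqrt_sq_eq_abs, abs_div, abs_of_pos (by positivity : (0 : ℝ) < ((k : ℝ) + 1) ^ 2)]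
  have h3 : Tendsto (fun k : ℕ => |T (k ^ 2) ω| / (k : ℝ) ^ 2) atTop (𝓝 0) := by
    rw [← tendsto_add_atTop_iff_nat 1]
    refine h2.congr fun k => ?_
    push_cast
    rfl
  have h4 : Tendsto (fun k : ℕ => |T (k ^ 2) ω| / (k : ℝ) ^ 2 + 4 * C / k) atTop (𝓝 0) := by
    have := h3.add (tendsto_const_div_atTop_nhds_zero_nat (4 * C))
    simpa using this
  have h5 := h4.comp tendsto_nat_sqrt
  refine squeeze_zero_norm' ?_ h5
  filter_upwards [eventually_ge_atTop 1] with n hn
  simp only [Function.comp_apply]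
  set k := Nat.sqrt n with hk
  have hk1 : 1 ≤ k := Nat.le_sqrt.2 (by omega)
  have hkn : k ^ 2 ≤ n := by rw [pow_two]; exact Nat.sqrt_le n
  have hnk : n ≤ k ^ 2 + 2 * k := by
    have := Nat.sqrt_le_add n
    rw [← hk] at this
    nlinarith
  have hkR : (0 : ℝ) < k := by exact_mod_cast hk1
  have hnR : (0 : ℝ) < n := by exact_mod_cast hn
  have hBe : ∀ i, |B i ω - ∫ ω, B i ω ∂μ| ≤ 2 * C := by
    intro i
    have h1 := hBω i
    have h2 : |∫ ω, B i ω ∂μ| ≤ C := by
      have := norm_integral_le_of_norm_le_const (μ := μ) (f := B i) (C := C)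
        (by simpa only [Real.norm_eq_abs] using hB i)
      simpa using this
    have h3 := abs_sub (B i ω) (∫ ω, B i ω ∂μ)
    linarith
  have hdiff : |T n ω - T (k ^ 2) ω| ≤ 4 * C * k := by
    have e : T n ω - T (k ^ 2) ω = ∑ i ∈ Finset.Ico (k ^ 2) n, (B i ω - ∫ ω, B i ω ∂μ) := by
      rw [Finset.sum_Ico_eq_sub _ hkn]
    rw [e]
    refine (Finset.abs_sum_le_sum_abs _ _).trans ((Finset.sum_le_sum fun i _ => hBe i).trans ?_)
    rw [Finset.sum_const, Nat.card_Ico, nsmul_eq_mul]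
    have : ((n - k ^ 2 : ℕ) : ℝ) ≤ 2 * k := by
      have : n - k ^ 2 ≤ 2 * k := by omega
      exact_mod_cast this
    nlinarith
  have hTn : |T n ω| ≤ |T (k ^ 2) ω| + 4 * C * k := by
    have := abs_sub_abs_le_abs_sub (T n ω) (T (k ^ 2) ω)
    linarith
  rw [Real.norm_eq_abs, abs_div, abs_of_pos hnR]
  have hkn' : (k : ℝ) ^ 2 ≤ n := by exact_mod_cast hkn
  calc |T n ω| / n ≤ (|T (k ^ 2) ω| + 4 * C * k) / n := by gcongr
    _ ≤ (|T (k ^ 2) ω| + 4 * C * k) / (k : ℝ) ^ 2 := by gcongr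
    _ = |T (k ^ 2) ω| / (k : ℝ) ^ 2 + 4 * C / k := by
      field_simp

end Scalar

section Vector

set_option linter.unusedSectionVars false

variable {Ω : Type*} [MeasurableSpace Ω] {μ : Measure Ω} [IsProbabilityMeasure μ]
variable {E : Type*} [NormedAddCommGroup E] [NormedSpace ℝ E] [CompleteSpace E]
  [MeasurableSpace E] [BorelSpace E] [SecondCountableTopology E]

theorem integral_norm_le_add {U V : Ω → E} (hUm : Measurable U) (hVm : Measurable V)
    (hU : Integrable U μ) (hV : Integrable V μ) (hind : IndepFun U V μ) (h0 : ∫ ω, V ω ∂μ = 0) :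
    ∫ ω, ‖U ω‖ ∂μ ≤ ∫ ω, ‖U ω + V ω‖ ∂μ := by
  have hprod := (indepFun_iff_map_prod_eq_prod_map_map hUm.aemeasurable hVm.aemeasurable).1 hind
  have : IsProbabilityMeasure (μ.map U) := Measure.isProbabilityMeasure_map hUm.aemeasurable
  have : IsProbabilityMeasure (μ.map V) := Measure.isProbabilityMeasure_map hVm.aemeasurable
  have hg : Measurable (fun p : E × E => ‖p.1 + p.2‖) :=
    (measurable_fst.add measurable_snd).norm
  have h1 : ∫ ω, ‖U ω + V ω‖ ∂μ = ∫ p, ‖p.1 + p.2‖ ∂((μ.map U).prod (μ.map V)) := by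
    rw [← hprod]
    exact (integral_map (hUm.prodMk hVm).aemeasurable hg.aestronglyMeasurable).symm
  have hint : Integrable (fun p : E × E => ‖p.1 + p.2‖) ((μ.map U).prod (μ.map V)) := by
    rw [← hprod]
    refine (integrable_map_measure hg.aestronglyMeasurable (hUm.prodMk hVm).aemeasurable).2 ?_
    exact (hU.add hV).norm
  rw [h1, integral_prod _ hint]
  have h2 : ∫ ω, ‖U ω‖ ∂μ = ∫ u, ‖u‖ ∂(μ.map U) :=
    (integral_map hUm.aemeasurable measurable_norm.aestronglyMeasurable).symm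
  rw [h2]
  have hVid : Integrable (fun v : E => v) (μ.map V) :=
    (integrable_map_measure measurable_id.aestronglyMeasurable hVm.aemeasurable).2 hV
  have hV0 : ∫ v, v ∂(μ.map V) = 0 := by
    have := integral_map (μ := μ) hVm.aemeasurable (f := fun v : E => v)
      measurable_id.aestronglyMeasurable
    rw [this]
    exact h0
  refine integral_mono_ae ?_ hint.integral_prod_left ?_
  · exact (integrable_map_measure measurable_norm.aestronglyMeasurable hUm.aemeasurable).2 hU.norm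
  · refine Eventually.of_forall fun u => ?_
    have h3 : ∫ v, (u + v) ∂(μ.map V) = u := by
      rw [integral_add (integrable_const u) hVid, hV0]
      simp
    calc ‖u‖ = ‖∫ v, (u + v) ∂(μ.map V)‖ := by rw [h3]
      _ ≤ ∫ v, ‖u + v‖ ∂(μ.map V) := norm_integral_le_integral_norm _

theorem indep_sums {m : ℕ} (X : Fin m → Ω → E) (hm : ∀ i, Measurable (X i)) (hind : iIndepFun X μ)
    (A B : Finset (Fin m)) (hAB : Disjoint A B) :
    IndepFun (fun ω => ∑ i ∈ A, X i ω) (fun ω => ∑ i ∈ B, X i ω) μ := by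
  have h := hind.indepFun_finset A B hAB hm
  have h1 := h.comp (φ := fun v : (A → E) => ∑ i, v i) (ψ := fun v : (B → E) => ∑ i, v i)
    (Finset.measurable_sum _ fun i _ => measurable_pi_apply i)
    (Finset.measurable_sum _ fun i _ => measurable_pi_apply i)
  have e1 : (fun ω => ∑ i ∈ A, X i ω) =
      (fun v : (A → E) => ∑ i, v i) ∘ (fun a (i : A) => X i a) := by
    funext ω
    simp only [Function.comp_apply]
    exact (Finset.sum_coe_sort A (fun i => X i ω)).symm
  have e2 : (fun ω => ∑ i ∈ B, X i ω) =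
      (fun v : (B → E) => ∑ i, v i) ∘ (fun a (i : B) => X i a) := by
    funext ω
    simp only [Function.comp_apply]
    exact (Finset.sum_coe_sort B (fun i => X i ω)).symm
  rw [e1, e2]
  exact h1

/-- Symmetrization with fixed signs. -/
theorem symm_fixed {m : ℕ} (X : Fin m → Ω → E) (hm : ∀ i, Measurable (X i))
    (hi : ∀ i, Integrable (X i) μ) (hind : iIndepFun X μ) (h0 : ∀ i, ∫ ω, X i ω ∂μ = 0)
    (s : Fin m → ℤˣ) :
    ∫ ω, ‖∑ i, X i ω‖ ∂μ ≤ 2 * ∫ ω, ‖∑ i, sg (s i) • X i ω‖ ∂μ := by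
  classical
  set A : Finset (Fin m) := Finset.univ.filter fun i => s i = 1 with hA
  set B : Finset (Fin m) := Finset.univ.filter fun i => ¬ s i = 1 with hB
  have hAB : Disjoint A B := Finset.disjoint_filter_filter_not _ _ _
  set U : Ω → E := fun ω => ∑ i ∈ A, X i ω with hU
  set V : Ω → E := fun ω => ∑ i ∈ B, X i ω with hV
  have hUm : Measurable U := Finset.measurable_sum _ fun i _ => hm i
  have hVm : Measurable V := Finset.measurable_sum _ fun i _ => hm i
  have hUi : Integrable U μ := integrable_finsetSum _ fun i _ => hi i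
  have hVi : Integrable V μ := integrable_finsetSum _ fun i _ => hi i
  have hU0 : ∫ ω, U ω ∂μ = 0 := by
    rw [hU, integral_finsetSum _ fun i _ => hi i]
    exact Finset.sum_eq_zero fun i _ => h0 i
  have hV0 : ∫ ω, V ω ∂μ = 0 := by
    rw [hV, integral_finsetSum _ fun i _ => hi i]
    exact Finset.sum_eq_zero fun i _ => h0 i
  have hUV : IndepFun U V μ := indep_sums X hm hind A B hAB
  have e1 : ∀ ω, ∑ i, X i ω = U ω + V ω := fun ω =>
    (Finset.sum_filter_add_sum_filter_not Finset.univ (fun i => s i = 1) (fun i => X i ω)).symm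
  have e2 : ∀ ω, ∑ i, sg (s i) • X i ω = U ω - V ω := by
    intro ω
    rw [← Finset.sum_filter_add_sum_filter_not Finset.univ (fun i => s i = 1)
      (fun i => sg (s i) • X i ω), sub_eq_add_neg, hV, ← Finset.sum_neg_distrib]
    congr 1
    · refine Finset.sum_congr rfl fun i hi => ?_
      rw [(Finset.mem_filter.1 hi).2, sg_one, one_smul]
    · refine Finset.sum_congr rfl fun i hi => ?_
      have h1 : s i = -1 := (Int.units_eq_one_or (s i)).resolve_left (Finset.mem_filter.1 hi).2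
      rw [h1, sg_neg, sg_one, neg_smul, one_smul]
  simp only [e1, e2]
  have h1 : ∫ ω, ‖U ω‖ ∂μ ≤ ∫ ω, ‖U ω - V ω‖ ∂μ := by
    have := integral_norm_le_add hUm hVm.neg hUi hVi.neg
      (hUV.neg_right) (by
        have : ∫ ω, (-V) ω ∂μ = -∫ ω, V ω ∂μ := integral_neg V
        rw [this, hV0, neg_zero])
    simpa only [Pi.neg_apply, ← sub_eq_add_neg] using this
  have h2 : ∫ ω, ‖V ω‖ ∂μ ≤ ∫ ω, ‖U ω - V ω‖ ∂μ := by
    have := integral_norm_le_add hVm hUm.neg hVi hUi.neg
      (hUV.symm.neg_right) (by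
        have : ∫ ω, (-U) ω ∂μ = -∫ ω, U ω ∂μ := integral_neg U
        rw [this, hU0, neg_zero])
    simpa only [Pi.neg_apply, ← sub_eq_add_neg, norm_sub_rev (V _)] using this
  have h3 : ∫ ω, ‖U ω + V ω‖ ∂μ ≤ ∫ ω, ‖U ω‖ ∂μ + ∫ ω, ‖V ω‖ ∂μ := by
    rw [← integral_add hUi.norm hVi.norm]
    exact integral_mono (hUi.add hVi).norm (hUi.norm.add hVi.norm) fun ω => norm_add_le _ _
  linarith

/-- The expected norm of a centred block. -/
theorem block_mean {m : ℕ} (Y : Fin m → Ω → E) (hm : ∀ i, Measurable (Y i))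
    (hi : ∀ i, Integrable (Y i) μ) (hind : iIndepFun Y μ) {q : ℝ}
    (hdet : ∀ᵐ ω ∂μ, ∑ s : Fin m → ℤˣ, ‖∑ i, sg (s i) • Y i ω‖ ≤
      Fintype.card (Fin m → ℤˣ) * q) :
    ∫ ω, ‖∑ i, (Y i ω - ∫ ω, Y i ω ∂μ)‖ ∂μ ≤ 4 * q := by
  set S : ℝ := (Fintype.card (Fin m → ℤˣ) : ℝ) with hS
  have hS0 : 0 < S := by
    rw [hS]
    exact_mod_cast Fintype.card_pos
  set e : Fin m → E := fun i => ∫ ω, Y i ω ∂μ with he
  have hXi : ∀ i, Integrable (fun ω => Y i ω - e i) μ := fun i => (hi i).sub (integrable_const _)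
  have hXm : ∀ i, Measurable (fun ω => Y i ω - e i) := fun i => (hm i).sub_const _
  have hX0 : ∀ i, ∫ ω, (Y i ω - e i) ∂μ = 0 := by
    intro i
    rw [integral_sub (hi i) (integrable_const _)]
    simp [he]
  have hXind : iIndepFun (fun i ω => Y i ω - e i) μ :=
    hind.comp (fun i y => y - e i) fun i => measurable_id.sub_const _
  have h1 : ∀ s : Fin m → ℤˣ, ∫ ω, ‖∑ i, (Y i ω - e i)‖ ∂μ ≤
      2 * ∫ ω, ‖∑ i, sg (s i) • (Y i ω - e i)‖ ∂μ := fun s =>
    symm_fixed (fun i ω => Y i ω - e i) hXm hXi hXind hX0 s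
  have hsY : ∀ s : Fin m → ℤˣ, Integrable (fun ω => ∑ i, sg (s i) • Y i ω) μ := fun s =>
    integrable_finsetSum _ fun i _ => (hi i).smul _
  have h2 : ∀ s : Fin m → ℤˣ, ∫ ω, ‖∑ i, sg (s i) • (Y i ω - e i)‖ ∂μ ≤
      2 * ∫ ω, ‖∑ i, sg (s i) • Y i ω‖ ∂μ := by
    intro s
    have h3 : ‖∑ i, sg (s i) • e i‖ ≤ ∫ ω, ‖∑ i, sg (s i) • Y i ω‖ ∂μ := by
      have : ∫ ω, ∑ i, sg (s i) • Y i ω ∂μ = ∑ i, sg (s i) • e i := by
        rw [integral_finsetSum (f := fun i ω => sg (s i) • Y i ω) _ fun i _ => (hi i).smul (sg (s i))]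
        refine Finset.sum_congr rfl fun i _ => ?_
        rw [integral_smul]
      rw [← this]
      exact norm_integral_le_integral_norm _
    have h4 : ∀ ω, ‖∑ i, sg (s i) • (Y i ω - e i)‖ ≤
        ‖∑ i, sg (s i) • Y i ω‖ + ‖∑ i, sg (s i) • e i‖ := by
      intro ω
      have : ∑ i, sg (s i) • (Y i ω - e i) = ∑ i, sg (s i) • Y i ω - ∑ i, sg (s i) • e i := by
        rw [← Finset.sum_sub_distrib]
        refine Finset.sum_congr rfl fun i _ => ?_
        rw [smul_sub]
      rw [this]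
      exact norm_sub_le _ _
    have h5 : ∫ ω, ‖∑ i, sg (s i) • (Y i ω - e i)‖ ∂μ ≤
        ∫ ω, (‖∑ i, sg (s i) • Y i ω‖ + ‖∑ i, sg (s i) • e i‖) ∂μ := by
      refine integral_mono ?_ ((hsY s).norm.add (integrable_const _)) h4
      exact (integrable_finsetSum _ fun i _ => (hXi i).smul _).norm
    rw [integral_add (hsY s).norm (integrable_const _)] at h5
    simp only [integral_const, probReal_univ, smul_eq_mul, one_mul] at h5
    linarith
  have h6 : S * ∫ ω, ‖∑ i, (Y i ω - e i)‖ ∂μ ≤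
      ∑ s : Fin m → ℤˣ, 4 * ∫ ω, ‖∑ i, sg (s i) • Y i ω‖ ∂μ := by
    have : S * ∫ ω, ‖∑ i, (Y i ω - e i)‖ ∂μ =
        ∑ s : Fin m → ℤˣ, ∫ ω, ‖∑ i, (Y i ω - e i)‖ ∂μ := by
      rw [Finset.sum_const, Finset.card_univ, nsmul_eq_mul]
    rw [this]
    refine Finset.sum_le_sum fun s _ => ?_
    have := h1 s
    have := h2 s
    linarith
  rw [← Finset.mul_sum, ← integral_finsetSum _ fun s _ => (hsY s).norm] at h6
  have h7 : ∫ ω, ∑ s : Fin m → ℤˣ, ‖∑ i, sg (s i) • Y i ω‖ ∂μ ≤ S * q := by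
    have : ∫ ω, ∑ s : Fin m → ℤˣ, ‖∑ i, sg (s i) • Y i ω‖ ∂μ ≤ ∫ _ω, S * q ∂μ :=
      integral_mono_ae (integrable_finsetSum _ fun s _ => (hsY s).norm) (integrable_const _) hdet
    simpa using this
  have h8 : S * ∫ ω, ‖∑ i, (Y i ω - e i)‖ ∂μ ≤ S * (4 * q) := by linarith
  exact le_of_mul_le_mul_left h8 hS0

theorem slln_blocks (Y : ℕ → Ω → E) (hm : ∀ n, Measurable (Y n)) (hind : iIndepFun Y μ) {R : ℝ}
    (hR : ∀ n, ∀ᵐ ω ∂μ, ‖Y n ω‖ ≤ R)
    (hdet : ∀ δ : ℝ, 0 < δ → ∃ m : ℕ, 0 < m ∧ ∀ i : ℕ, ∀ᵐ ω ∂μ,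
      ∑ s : Fin m → ℤˣ, ‖∑ j, sg (s j) • Y (i * m + j) ω‖ ≤
        Fintype.card (Fin m → ℤˣ) * (δ * m)) :
    ∀ᵐ ω ∂μ, Tendsto (fun n : ℕ => (n : ℝ)⁻¹ • ∑ i ∈ Finset.range n, (Y i ω - ∫ ω, Y i ω ∂μ)) atTop
      (𝓝 0) := by
  have hR0 : 0 ≤ R := by
    obtain ⟨ω, hω⟩ := (hR 0).exists
    exact (norm_nonneg _).trans hω
  have hint : ∀ n, Integrable (Y n) μ := fun n =>
    Integrable.of_bound (hm n).aestronglyMeasurable R (hR n)
  set e : ℕ → E := fun i => ∫ ω, Y i ω ∂μ with he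
  have heR : ∀ n, ‖e n‖ ≤ R := by
    intro n
    have := norm_integral_le_of_norm_le_const (μ := μ) (hR n)
    simpa using this
  -- one value of `δ`
  have main : ∀ δ : ℝ, 0 < δ → ∀ᵐ ω ∂μ, ∀ᶠ n : ℕ in atTop,
      ‖(n : ℝ)⁻¹ • ∑ i ∈ Finset.range n, (Y i ω - e i)‖ ≤ 6 * δ := by
    intro δ hδ
    obtain ⟨m, hm0, hdm⟩ := hdet δ hδ
    have hmR : (0 : ℝ) < m := by exact_mod_cast hm0
    -- the blocks
    set B : ℕ → Ω → ℝ := fun i ω => ‖∑ j : Fin m, (Y (i * m + j) ω - e (i * m + j))‖ with hB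
    have hBm : ∀ i, Measurable (B i) := fun i =>
      (Finset.measurable_sum _ fun j _ => (hm _).sub_const _).norm
    have hBb : ∀ i, ∀ᵐ ω ∂μ, |B i ω| ≤ m * (2 * R) := by
      intro i
      filter_upwards [ae_all_iff.2 hR] with ω hω
      rw [abs_of_nonneg (norm_nonneg _)]
      refine (norm_sum_le _ _).trans ?_
      have : ∀ j ∈ (Finset.univ : Finset (Fin m)), ‖Y (i * m + j) ω - e (i * m + j)‖ ≤ 2 * R := by
        intro j _
        have h1 := norm_sub_le (Y (i * m + j) ω) (e (i * m + j))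
        have h2 := hω (i * m + j)
        have h3 := heR (i * m + j)
        linarith
      refine (Finset.sum_le_sum this).trans (le_of_eq ?_)
      rw [Finset.sum_const, Finset.card_univ, Fintype.card_fin, nsmul_eq_mul]
    have hinj : ∀ i : ℕ, Function.Injective (fun j : Fin m => i * m + (j : ℕ)) := by
      intro i j k h
      exact Fin.ext (Nat.add_left_cancel h)
    have hBmean : ∀ i, ∫ ω, B i ω ∂μ ≤ 4 * (δ * m) := by
      intro i
      exact block_mean (fun (j : Fin m) => Y (i * m + j)) (fun j => hm _) (fun j => hint _)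
        (hind.precomp (hinj i)) (hdm i)
    have hBind : Pairwise fun i i' => IndepFun (B i) (B i') μ := by
      intro i i' hii
      set S : Finset ℕ := Finset.univ.image fun j : Fin m => i * m + (j : ℕ) with hSdef
      set T : Finset ℕ := Finset.univ.image fun j : Fin m => i' * m + (j : ℕ) with hTdef
      have hST : Disjoint S T := by
        rw [Finset.disjoint_left]
        intro a ha hb
        obtain ⟨j, -, hj⟩ := Finset.mem_image.1 ha
        obtain ⟨k, -, hk⟩ := Finset.mem_image.1 hb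
        apply hii
        have h1 : a / m = i := by
          rw [← hj, Nat.mul_comm, Nat.mul_add_div hm0, Nat.div_eq_of_lt j.2, add_zero]
        have h2 : a / m = i' := by
          rw [← hk, Nat.mul_comm, Nat.mul_add_div hm0, Nat.div_eq_of_lt k.2, add_zero]
        omega
      have h := hind.indepFun_finset S T hST hm
      have hmemS : ∀ j : Fin m, i * m + (j : ℕ) ∈ S := fun j =>
        Finset.mem_image.2 ⟨j, Finset.mem_univ _, rfl⟩
      have hmemT : ∀ j : Fin m, i' * m + (j : ℕ) ∈ T := fun j =>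
        Finset.mem_image.2 ⟨j, Finset.mem_univ _, rfl⟩
      have h1 := h.comp
        (φ := fun v : (S → E) => ‖∑ j : Fin m, (v ⟨_, hmemS j⟩ - e (i * m + j))‖)
        (ψ := fun v : (T → E) => ‖∑ j : Fin m, (v ⟨_, hmemT j⟩ - e (i' * m + j))‖)
        (Finset.measurable_sum _ fun j _ =>
          (measurable_pi_apply (⟨_, hmemS j⟩ : S)).sub_const _).norm
        (Finset.measurable_sum _ fun j _ =>
          (measurable_pi_apply (⟨_, hmemT j⟩ : T)).sub_const _).norm
      exact h1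
    have hslln := slln_scalar B hBm (by positivity : 0 ≤ m * (2 * R)) hBb hBind
    filter_upwards [hslln, ae_all_iff.2 hR] with ω hω hRω
    -- partial sums of the blocks
    have hJ : ∀ᶠ J : ℕ in atTop, (∑ i ∈ Finset.range J, B i ω) ≤ J * (5 * (δ * m)) := by
      have h1 : ∀ᶠ J : ℕ in atTop,
          (∑ i ∈ Finset.range J, (B i ω - ∫ ω, B i ω ∂μ)) / J < δ * m :=
        hω.eventually_lt_const (by positivity)
      filter_upwards [h1, eventually_gt_atTop 0] with J h2 hJ0
      have hJR : (0 : ℝ) < J := by exact_mod_cast hJ0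
      rw [div_lt_iff₀ hJR, Finset.sum_sub_distrib] at h2
      have h3 : ∑ i ∈ Finset.range J, ∫ ω, B i ω ∂μ ≤ ∑ i ∈ Finset.range J, 4 * (δ * m) :=
        Finset.sum_le_sum fun i _ => hBmean i
      rw [Finset.sum_const, Finset.card_range, nsmul_eq_mul] at h3
      linarith
    have hdiv : Tendsto (fun n : ℕ => n / m) atTop atTop := by
      rw [tendsto_atTop_atTop]
      intro b
      refine ⟨b * m, fun a ha => ?_⟩
      exact (Nat.le_div_iff_mul_le hm0).2 ha
    obtain ⟨N0, hN0⟩ := exists_nat_gt (m * (2 * R) / δ)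
    filter_upwards [hdiv.eventually hJ, eventually_gt_atTop 0, eventually_ge_atTop N0] with n hn hn0
      hnN
    have hnR : (0 : ℝ) < n := by exact_mod_cast hn0
    have hdec : ∀ J : ℕ, ∑ i ∈ Finset.range (J * m), (Y i ω - e i) =
        ∑ i ∈ Finset.range J, ∑ j : Fin m, (Y (i * m + j) ω - e (i * m + j)) := by
      intro J
      induction J with
      | zero => simp
      | succ J ih =>
        rw [Finset.sum_range_succ, ← ih, Nat.succ_mul, Finset.sum_range_add]
        congr 1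
        exact Finset.sum_range (fun j => Y (J * m + j) ω - e (J * m + j))
    have hsplit : ∑ i ∈ Finset.range n, (Y i ω - e i) =
        ∑ i ∈ Finset.range (n / m * m), (Y i ω - e i) +
        ∑ i ∈ Finset.Ico (n / m * m) n, (Y i ω - e i) :=
      (Finset.sum_range_add_sum_Ico _ (Nat.div_mul_le_self n m)).symm
    have hb1 : ‖∑ i ∈ Finset.range (n / m * m), (Y i ω - e i)‖ ≤
        ∑ i ∈ Finset.range (n / m), B i ω := by
      rw [hdec]
      exact norm_sum_le _ _
    have hb2 : ‖∑ i ∈ Finset.Ico (n / m * m) n, (Y i ω - e i)‖ ≤ m * (2 * R) := by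
      refine (norm_sum_le _ _).trans ?_
      have h1 : ∀ i ∈ Finset.Ico (n / m * m) n, ‖Y i ω - e i‖ ≤ 2 * R := by
        intro i _
        have h1 := norm_sub_le (Y i ω) (e i)
        have h2 := hRω i
        have h3 := heR i
        linarith
      refine (Finset.sum_le_sum h1).trans ?_
      rw [Finset.sum_const, Nat.card_Ico, nsmul_eq_mul]
      have h4 : n - n / m * m ≤ m := by
        have h5 := Nat.div_add_mod n m
        have h6 := Nat.mod_lt n hm0
        rw [Nat.mul_comm] at h5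
        omega
      have h7 : ((n - n / m * m : ℕ) : ℝ) ≤ m := by exact_mod_cast h4
      gcongr
    have hdivR : ((n / m : ℕ) : ℝ) * m ≤ n := by exact_mod_cast Nat.div_mul_le_self n m
    have hlast : m * (2 * R) ≤ δ * n := by
      have h1 : m * (2 * R) / δ < n := hN0.trans_le (by exact_mod_cast hnN)
      rw [div_lt_iff₀ hδ] at h1
      linarith
    have hall : ‖∑ i ∈ Finset.range n, (Y i ω - e i)‖ ≤ 6 * δ * n := by
      rw [hsplit]
      refine (norm_add_le _ _).trans ?_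
      have h1 : ∑ i ∈ Finset.range (n / m), B i ω ≤ 5 * δ * n := by
        refine hn.trans ?_
        have : ((n / m : ℕ) : ℝ) * (5 * (δ * m)) = 5 * δ * (((n / m : ℕ) : ℝ) * m) := by ring
        rw [this]
        gcongr
      linarith
    rw [norm_smul, norm_inv, Real.norm_of_nonneg hnR.le, inv_mul_le_iff₀ hnR]
    linarith
  have hseq := ae_all_iff.2 fun p : ℕ => main (1 / ((p : ℝ) + 1)) (by positivity)
  filter_upwards [hseq] with ω hω
  rw [tendsto_zero_iff_norm_tendsto_zero, Metric.tendsto_atTop]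
  intro ε hε
  obtain ⟨p, hp⟩ := exists_nat_gt (6 / ε)
  obtain ⟨N, hN⟩ := (eventually_atTop.1 (hω p))
  refine ⟨N, fun n hn => ?_⟩
  rw [Real.dist_eq, sub_zero, abs_norm]
  refine (hN n hn).trans_lt ?_
  rw [mul_one_div, div_lt_iff₀ (by positivity)]
  rw [div_lt_iff₀ hε] at hp
  nlinarith

end Vector

end X169.RadProb
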