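import Mathlib
import Pool.Agent.X169.Rad
import Pool.Agent.X169.RandomSets

/-!
Rademacher averages of support functions of bounded convex sets of bounded dimension.
-/

namespace X169.RadSets

open MeasureTheory Metric Set X169.Rad X169.RS
open scoped ENNReal

section Cover

/-- Volume bound for separated sets. -/
theorem card_le_of_sep {E : Type*} [NormedAddCommGroup E] [NormedSpace ℝ E]
    [FiniteDimensional ℝ E] (s : Finset E) {R η : ℝ} (hR : 0 ≤ R) (hη : 0 < η)
    (hs : ∀ c ∈ s, ‖c‖ ≤ R) (h : ∀ c ∈ s, ∀ d ∈ s, c ≠ d → η ≤ ‖c - d‖) :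
    (s.card : ℝ) ≤ (1 + 2 * R / η) ^ Module.finrank ℝ E := by
  borelize E
  let μ : Measure E := Measure.addHaar
  let δ : ℝ := η / 2
  let ρ : ℝ := R + η / 2
  have δpos : 0 < δ := by positivity
  have ρpos : 0 < ρ := by positivity
  set A := ⋃ c ∈ s, ball (c : E) δ with hA
  have D : Set.Pairwise (s : Set E) (fun c d => Disjoint (ball (c : E) δ) (ball (d : E) δ)) := by
    rintro c hc d hd hcd
    apply ball_disjoint_ball
    rw [dist_eq_norm]
    have := h c hc d hd hcd
    simp only [δ]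
    linarith
  have A_subset : A ⊆ ball (0 : E) ρ := by
    refine iUnion₂_subset fun x hx => ?_
    apply ball_subset_ball'
    rw [dist_zero_right]
    have := hs x hx
    simp only [δ, ρ]
    linarith
  have I :
    (s.card : ℝ≥0∞) * ENNReal.ofReal (δ ^ Module.finrank ℝ E) * μ (ball 0 1) ≤
      ENNReal.ofReal (ρ ^ Module.finrank ℝ E) * μ (ball 0 1) :=
    calc
      (s.card : ℝ≥0∞) * ENNReal.ofReal (δ ^ Module.finrank ℝ E) * μ (ball 0 1) = μ A := by
        rw [hA, measure_biUnion_finset D fun c _ => measurableSet_ball]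
        simp only [μ.addHaar_ball_of_pos _ δpos]
        simp only [Finset.sum_const, nsmul_eq_mul, mul_assoc]
      _ ≤ μ (ball (0 : E) ρ) := measure_mono A_subset
      _ = ENNReal.ofReal (ρ ^ Module.finrank ℝ E) * μ (ball 0 1) := by
        simp only [μ.addHaar_ball_of_pos _ ρpos]
  have J : (s.card : ℝ≥0∞) * ENNReal.ofReal (δ ^ Module.finrank ℝ E) ≤
      ENNReal.ofReal (ρ ^ Module.finrank ℝ E) :=
    (ENNReal.mul_le_mul_iff_left (measure_ball_pos _ _ zero_lt_one).ne' measure_ball_lt_top.ne).1 I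
  have K := ENNReal.toReal_le_of_le_ofReal (pow_nonneg ρpos.le _) J
  rw [ENNReal.toReal_mul, ENNReal.toReal_natCast,
    ENNReal.toReal_ofReal (pow_nonneg δpos.le _)] at K
  rw [← le_div_iff₀ (pow_pos δpos _), ← div_pow] at K
  refine K.trans (le_of_eq ?_)
  congr 1
  simp only [ρ, δ]
  field_simp
  ring

variable {X : Type*} [NormedAddCommGroup X] [NormedSpace ℝ X]

/-- A bounded set of dimension at most `d` has an `η`-net with a bounded number of elements. -/
theorem exists_net (d : ℕ) {R η : ℝ} (hR : 0 ≤ R) (hη : 0 < η) : ∃ N : ℕ,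
    ∀ A : Set X, A.Nonempty → (∀ a ∈ A, ‖a‖ ≤ R) → Module.rank ℝ (vectorSpan ℝ A) ≤ (d : Cardinal) →
      ∃ s : Finset X, s.Nonempty ∧ s.card ≤ N ∧ (∀ v ∈ s, v ∈ A) ∧
        ∀ a ∈ A, ∃ v ∈ s, ‖a - v‖ < η := by
  refine ⟨⌊(1 + 2 * (2 * R) / η) ^ d⌋₊, ?_⟩
  intro A hne hA hd
  obtain ⟨a0, ha0⟩ := hne
  have hfin : Module.Finite ℝ (vectorSpan ℝ A) := by
    rw [← Module.rank_lt_aleph0_iff]
    exact hd.trans_lt (Cardinal.natCast_lt_aleph0)
  have hfr : Module.finrank ℝ (vectorSpan ℝ A) ≤ d := by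
    have := hd
    rw [← Module.finrank_eq_rank] at this
    exact_mod_cast this
  have hbase : (1 : ℝ) ≤ 1 + 2 * (2 * R) / η := by
    have : 0 ≤ 2 * (2 * R) / η := by positivity
    linarith
  have key : ∀ s : Finset X, (∀ v ∈ s, v ∈ A) → (∀ c ∈ s, ∀ e ∈ s, c ≠ e → η ≤ ‖c - e‖) →
      s.card ≤ ⌊(1 + 2 * (2 * R) / η) ^ d⌋₊ := by
    classical
    intro s hs hsep
    have hmem : ∀ v ∈ s, v - a0 ∈ vectorSpan ℝ A := fun v hv =>
      vsub_mem_vectorSpan ℝ (hs v hv) ha0
    let f : s → vectorSpan ℝ A := fun v => ⟨v.1 - a0, hmem v.1 v.2⟩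
    have hf : Function.Injective f := by
      intro v w h
      have h' := congrArg Subtype.val h
      simp only [f] at h'
      exact Subtype.ext (sub_left_injective h')
    have hc := card_le_of_sep (Finset.univ.image f) (R := 2 * R) (η := η) (by positivity) hη
      (by
        intro c hc
        obtain ⟨v, -, rfl⟩ := Finset.mem_image.1 hc
        have h1 := hA v.1 (hs v.1 v.2)
        have h2 := hA a0 ha0
        show ‖(v.1 : X) - a0‖ ≤ 2 * R
        have := norm_sub_le (v.1 : X) a0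
        linarith)
      (by
        intro c hc e he hce
        obtain ⟨v, -, rfl⟩ := Finset.mem_image.1 hc
        obtain ⟨w, -, rfl⟩ := Finset.mem_image.1 he
        have hvw : (v.1 : X) ≠ w.1 := by
          intro h
          apply hce
          rw [Subtype.ext h]
        have := hsep v.1 v.2 w.1 w.2 hvw
        show η ≤ ‖(v.1 : X) - a0 - (w.1 - a0)‖
        rw [sub_sub_sub_cancel_right]
        exact this)
    rw [Finset.card_image_of_injective _ hf, Finset.card_univ, Fintype.card_coe] at hc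
    apply Nat.le_floor
    exact hc.trans (pow_le_pow_right₀ hbase hfr)
  -- a separated set with the maximal number of elements
  classical
  let P : ℕ → Prop := fun n => ∃ s : Finset X, s.card = n ∧ (∀ v ∈ s, v ∈ A) ∧
    (∀ c ∈ s, ∀ e ∈ s, c ≠ e → η ≤ ‖c - e‖)
  have hP1 : P 1 := ⟨{a0}, by simp, by simpa using ha0, by simp⟩
  have hPb : ∀ n, P n → n ≤ ⌊(1 + 2 * (2 * R) / η) ^ d⌋₊ := by
    rintro n ⟨s, rfl, h1, h2⟩
    exact key s h1 h2
  have h1n := hPb 1 hP1
  have hmax := Nat.findGreatest_spec (P := P) h1n hP1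
  set n0 := Nat.findGreatest P ⌊(1 + 2 * (2 * R) / η) ^ d⌋₊ with hn0
  obtain ⟨s, hs1, hs2, hs3⟩ := hmax
  have hn1 : 1 ≤ n0 := Nat.le_findGreatest h1n hP1
  refine ⟨s, Finset.card_pos.1 (by omega), by rw [hs1]; exact Nat.findGreatest_le _, hs2, ?_⟩
  intro a ha
  by_contra hcon
  push Not at hcon
  have hnot : a ∉ s := fun h => by
    have := hcon a h
    rw [sub_self, norm_zero] at this
    linarith
  have hP : P (n0 + 1) := by
    refine ⟨insert a s, ?_, ?_, ?_⟩
    · rw [Finset.card_insert_of_notMem hnot, hs1]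
    · intro v hv
      rcases Finset.mem_insert.1 hv with rfl | hv
      · exact ha
      · exact hs2 v hv
    · intro c hc e he hce
      rcases Finset.mem_insert.1 hc with h1 | h1
      · rcases Finset.mem_insert.1 he with h2 | h2
        · exact absurd (h1.trans h2.symm) hce
        · rw [h1]
          exact hcon e h2
      · rcases Finset.mem_insert.1 he with h2 | h2
        · rw [norm_sub_rev, h2]
          exact hcon c h1
        · exact hs3 c h1 e h2 hce
  have := Nat.le_findGreatest (hPb _ hP) hP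
  omega

end Cover

section Det

variable {X : Type*} [NormedAddCommGroup X] [NormedSpace ℝ X]

/-- the unit ball of the dual -/
abbrev DBall (X : Type*) [NormedAddCommGroup X] [NormedSpace ℝ X] :=
  {f : StrongDual ℝ X // ‖f‖ ≤ 1}

theorem rle_linear {ι : Type*} [Fintype ι] [DecidableEq ι] (v : ι → X) :
    Rle (fun i (f : DBall X) => f.1 (v i)) (∑ s : ι → ℤˣ, ‖∑ i, sg (s i) • v i‖) := by
  intro τ
  refine Finset.sum_le_sum fun s _ => ?_
  have e : ∑ i, sg (s i) * (τ s).1 (v i) = (τ s).1 (∑ i, sg (s i) • v i) := by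
    rw [map_sum]
    refine Finset.sum_congr rfl fun i _ => ?_
    rw [map_smul, smul_eq_mul]
  rw [e]
  calc (τ s).1 (∑ i, sg (s i) • v i) ≤ ‖(τ s).1 (∑ i, sg (s i) • v i)‖ := le_abs_self _
    _ ≤ ‖(τ s).1‖ * ‖∑ i, sg (s i) • v i‖ := (τ s).1.le_opNorm _
    _ ≤ 1 * ‖∑ i, sg (s i) • v i‖ := by gcongr; exact (τ s).2
    _ = _ := one_mul _

theorem supp_approx (A : BC X) {s : Finset X} (hs : s.Nonempty) {η : ℝ} (hsA : ∀ v ∈ s, v ∈ A.carrier)
    (h : ∀ a ∈ A.carrier, ∃ v ∈ s, ‖a - v‖ < η) (f : DBall X) :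
    |supp A.carrier f.1 - s.sup' hs (fun v => f.1 v)| ≤ η := by
  have h1 : s.sup' hs (fun v => f.1 v) ≤ supp A.carrier f.1 := by
    apply Finset.sup'_le
    intro v hv
    exact le_csSup (bddAbove_image A f.1) ⟨v, hsA v hv, rfl⟩
  have h2 : supp A.carrier f.1 ≤ s.sup' hs (fun v => f.1 v) + η := by
    refine csSup_le (A.nonempty.image _) ?_
    rintro _ ⟨a, ha, rfl⟩
    obtain ⟨v, hv, hav⟩ := h a ha
    have h3 : f.1 v ≤ s.sup' hs (fun v => f.1 v) := Finset.le_sup' (fun v => f.1 v) hv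
    have h4 : f.1 (a - v) ≤ η := by
      calc f.1 (a - v) ≤ ‖f.1 (a - v)‖ := le_abs_self _
        _ ≤ ‖f.1‖ * ‖a - v‖ := f.1.le_opNorm _
        _ ≤ 1 * ‖a - v‖ := by gcongr; exact f.2
        _ = ‖a - v‖ := one_mul _
        _ ≤ η := hav.le
    rw [map_sub] at h4
    linarith
  rw [abs_le]
  constructor <;> linarith

theorem supp_zero_functional (A : BC X) : supp A.carrier (0 : StrongDual ℝ X) = 0 := by
  have h := abs_supp_le A 0
  rw [norm_zero, mul_zero] at h
  exact abs_nonpos_iff.1 h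

theorem norm_le_of_exists {Z : Type*} [TopologicalSpace Z] (w : BoundedContinuousFunction Z ℝ)
    {η : ℝ} (hη : 0 < η) [Nonempty Z] : ∃ z : Z, ‖w‖ ≤ |w z| + η := by
  by_contra hcon
  push Not at hcon
  have hb : ‖w‖ ≤ ‖w‖ - η ∨ ‖w‖ - η < 0 := by
    rcases lt_or_ge (‖w‖ - η) 0 with h | h
    · right; exact h
    · left
      refine (BoundedContinuousFunction.norm_le h).2 fun z => ?_
      rw [Real.norm_eq_abs]
      have := hcon z
      linarith
  rcases hb with hb | hb
  · linarith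
  · obtain ⟨z⟩ := ‹Nonempty Z›
    have := hcon z
    have := abs_nonneg (w z)
    linarith

/-- The deterministic bound: Rademacher averages of support functions of sets of bounded
dimension. -/
theorem det_bound (hX : BConv X) (d : ℕ) {R δ : ℝ} (hR : 0 ≤ R) (hδ : 0 < δ) :
    ∃ m : ℕ, 0 < m ∧ ∀ A : Fin m → BC X, (∀ i, ∀ a ∈ (A i).carrier, ‖a‖ ≤ R) →
      (∀ i, Module.rank ℝ (vectorSpan ℝ (A i).carrier) ≤ (d : Cardinal)) →
      ∑ s : Fin m → ℤˣ, ‖∑ i, sg (s i) • RS.R (A i)‖ ≤
        Fintype.card (Fin m → ℤˣ) * (δ * m) := by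
  obtain ⟨N, hN⟩ := exists_net (X := X) d hR (show 0 < δ / 8 by positivity)
  have hδ' : 0 < δ / (8 * (N + 1) * (R + 1)) := by positivity
  obtain ⟨m, hm, H⟩ := hX.flat hδ'
  refine ⟨m, hm, ?_⟩
  intro A hA hd
  set S : ℝ := (Fintype.card (Fin m → ℤˣ) : ℝ) with hS
  have hS0 : 0 < S := by
    rw [hS]
    exact_mod_cast Fintype.card_pos
  have hm0 : (0 : ℝ) < m := by exact_mod_cast hm
  rcases isEmpty_or_nonempty (DualSphere X) with hemp | hnon
  · have hz : ∀ w : BoundedContinuousFunction (DualSphere X) ℝ, ‖w‖ = 0 := by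
      intro w
      have : w = 0 := by
        ext z
        exact (hemp.false z).elim
      rw [this, norm_zero]
    simp only [hz, Finset.sum_const_zero]
    positivity
  choose s hs1 hs2 hs3 hs4 using fun i => hN (A i).carrier (A i).nonempty (hA i) (hd i)
  -- enumerate the nets by a common index set
  have hex : ∀ i, ∃ v : Fin (N + 1) → X, (∀ j, v j ∈ s i) ∧ ∀ u ∈ s i, ∃ j, v j = u := by
    intro i
    obtain ⟨u0, hu0⟩ := hs1 i
    let e := (s i).equivFin
    refine ⟨fun j => if h : j.1 < (s i).card then (e.symm ⟨j.1, h⟩ : X) else u0, ?_, ?_⟩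
    · intro j
      by_cases h : j.1 < (s i).card
      · simp only [h, dif_pos]
        exact (e.symm ⟨j.1, h⟩).2
      · simp only [h, dif_neg, not_false_eq_true]
        exact hu0
    · intro u hu
      have hlt := (e ⟨u, hu⟩).2
      have hle := hs2 i
      refine ⟨⟨(e ⟨u, hu⟩).1, by omega⟩, ?_⟩
      simp only [hlt, dif_pos]
      have : (⟨(e ⟨u, hu⟩).1, hlt⟩ : Fin (s i).card) = e ⟨u, hu⟩ := rfl
      rw [this, Equiv.symm_apply_apply]
  choose v hv1 hv2 using hex
  have hsup : ∀ i (f : DBall X), (s i).sup' (hs1 i) (fun u => f.1 u) =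
      (Finset.univ : Finset (Fin (N + 1))).sup' Finset.univ_nonempty (fun j => f.1 (v i j)) := by
    intro i f
    apply le_antisymm
    · apply Finset.sup'_le
      intro u hu
      obtain ⟨j, rfl⟩ := hv2 i u hu
      exact Finset.le_sup' (fun j => f.1 (v i j)) (Finset.mem_univ j)
    · apply Finset.sup'_le
      intro j _
      exact Finset.le_sup' (fun u => f.1 u) (hv1 i j)
  have hvR : ∀ i j, ‖v i j‖ ≤ R := fun i j => hA i _ (hs3 i _ (hv1 i j))
  have hlin : ∀ j ∈ (Finset.univ : Finset (Fin (N + 1))),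
      Rle (fun i (f : DBall X) => f.1 (v i j)) (S * (δ / (8 * (N + 1) * (R + 1)) * m * R)) := by
    intro j _ τ
    exact (rle_linear (fun i => v i j) τ).trans (H R (fun i => v i j) hR fun i => hvR i j)
  have hmax := Rle.sup' Finset.univ_nonempty hlin
  rw [Finset.card_univ, Fintype.card_fin] at hmax
  have happ := hmax.approx (b := fun i (f : DBall X) => supp (A i).carrier f.1) (η := δ / 8) (by
    intro i f
    have := supp_approx (A i) (hs1 i) (hs3 i) (hs4 i) f
    rw [hsup] at this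
    exact this)
  rw [Fintype.card_fin] at happ
  have hq : ((N + 1 : ℕ) : ℝ) * (S * (δ / (8 * (N + 1) * (R + 1)) * m * R)) + S * (m * (δ / 8)) ≤
      S * (δ * m / 4) := by
    have h1 : ((N + 1 : ℕ) : ℝ) * (S * (δ / (8 * (N + 1) * (R + 1)) * m * R)) ≤
        S * (m * (δ / 8)) := by
      push_cast
      have e : ((N : ℝ) + 1) * (S * (δ / (8 * (N + 1) * (R + 1)) * m * R)) =
          S * (m * (δ / 8)) * (R / (R + 1)) := by
        have : (N : ℝ) + 1 ≠ 0 := by positivity
        have : R + 1 ≠ 0 := by positivity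
        field_simp
      rw [e]
      apply mul_le_of_le_one_right (by positivity)
      rw [div_le_one (by positivity)]
      linarith
    have e2 : S * (m * (δ / 8)) + S * (m * (δ / 8)) = S * (δ * m / 4) := by ring
    linarith
  -- from the functions to the norms
  choose z hz using fun w : BoundedContinuousFunction (DualSphere X) ℝ =>
    norm_le_of_exists w (show 0 < δ * m / 2 by positivity)
  let τ : (Fin m → ℤˣ) → DBall X := fun t =>
    ⟨(z (∑ i, sg (t i) • RS.R (A i))).1, le_of_eq (mem_sphere_zero_iff_norm.1 (z _).2)⟩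
  have hfin := happ.sum_abs ⟨0, by simp⟩ (fun i => supp_zero_functional (A i)) τ
  have hcmp : ∑ t : Fin m → ℤˣ, ‖∑ i, sg (t i) • RS.R (A i)‖ ≤
      ∑ t : Fin m → ℤˣ, (|∑ i, sg (t i) * supp (A i).carrier (τ t).1| + δ * m / 2) := by
    refine Finset.sum_le_sum fun t _ => ?_
    refine (hz _).trans (le_of_eq ?_)
    congr 2
    simp only [BoundedContinuousFunction.coe_sum, Finset.sum_apply,
      BoundedContinuousFunction.coe_smul, smul_eq_mul]
    rfl
  rw [Finset.sum_add_distrib, Finset.sum_const, Finset.card_univ, nsmul_eq_mul] at hcmp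
  refine hcmp.trans ?_
  have : 2 * (((N + 1 : ℕ) : ℝ) * (S * (δ / (8 * (N + 1) * (R + 1)) * m * R)) +
      S * (m * (δ / 8))) ≤ 2 * (S * (δ * m / 4)) := by linarith
  have h9 := hfin.trans this
  have e3 : S * (δ * m) = 2 * (S * (δ * m / 4)) + S * (δ * m / 2) := by ring
  rw [e3]
  linarith

end Det

end X169.RadSets
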