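import Mathlib
import Pool.Agent.X169.RadSets
import Pool.Agent.X169.RadProb

/-!
The strong law for random sets of bounded dimension in B-convex spaces.
-/

namespace X169.RadFinal

open MeasureTheory ProbabilityTheory Filter Topology Set Metric X169.Rad X169.RS X169.RadSets
  X169.RadProb TopologicalSpace

section General

variable {Ω : Type*} [MeasurableSpace Ω] {μ : Measure Ω} [IsProbabilityMeasure μ]
variable {Z : Type*} [NormedAddCommGroup Z] [NormedSpace ℝ Z] [CompleteSpace Z]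
  [MeasurableSpace Z] [BorelSpace Z]

theorem slln_general (Y : ℕ → Ω → Z) (hi : ∀ n, Integrable (Y n) μ) (hind : iIndepFun Y μ) {R : ℝ}
    (hR : ∀ n ω, ‖Y n ω‖ ≤ R)
    (hdet : ∀ δ : ℝ, 0 < δ → ∃ m : ℕ, 0 < m ∧ ∀ (i : ℕ) (ω : Ω),
      ∑ s : Fin m → ℤˣ, ‖∑ j, sg (s j) • Y (i * m + j) ω‖ ≤
        Fintype.card (Fin m → ℤˣ) * (δ * m)) :
    ∀ᵐ ω ∂μ, Tendsto (fun n : ℕ => (n : ℝ)⁻¹ • ∑ i ∈ Finset.range n, (Y i ω - ∫ ω, Y i ω ∂μ)) atTop
      (𝓝 0) := by
  choose t ht1 ht2 using fun n => (aestronglyMeasurable_iff_aemeasurable_separable.1 (hi n).1).2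
  let W : Submodule ℝ Z := (Submodule.span ℝ (⋃ n, t n)).topologicalClosure
  have hWsep : IsSeparable (W : Set Z) := (IsSeparable.iUnion ht1).span.closure
  have hWcl : IsClosed (W : Set Z) := Submodule.isClosed_topologicalClosure _
  have hWm : MeasurableSet (W : Set Z) := hWcl.measurableSet
  have hsub : ∀ n, t n ⊆ (W : Set Z) := fun n x hx =>
    Submodule.le_topologicalClosure _ (Submodule.subset_span (mem_iUnion.2 ⟨n, hx⟩))
  have i1 : SecondCountableTopology W := hWsep.secondCountableTopology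
  have i2 : CompleteSpace W := hWcl.completeSpace_coe
  let f : ℕ → Ω → Z := fun n => (hi n).1.mk (Y n)
  have hf : ∀ n, Measurable (f n) := fun n => (hi n).1.stronglyMeasurable_mk.measurable
  have hfY : ∀ n, Y n =ᵐ[μ] f n := fun n => (hi n).1.ae_eq_mk
  let g : ℕ → Ω → Z := fun n => (f n ⁻¹' (W : Set Z)).indicator (f n)
  have hg : ∀ n, Measurable (g n) := fun n => (hf n).indicator ((hf n) hWm)
  have hgW : ∀ n ω, g n ω ∈ W := by
    intro n ω
    by_cases h : ω ∈ f n ⁻¹' (W : Set Z)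
    · simp only [g, Set.indicator_of_mem h]
      exact h
    · simp only [g, Set.indicator_of_notMem h]
      exact W.zero_mem
  have hgY : ∀ n, Y n =ᵐ[μ] g n := by
    intro n
    filter_upwards [hfY n, ht2 n] with ω h1 h2
    have h3 : ω ∈ f n ⁻¹' (W : Set Z) := by
      rw [mem_preimage, ← h1]
      exact hsub n h2
    simp only [g, Set.indicator_of_mem h3]
    exact h1
  let V : ℕ → Ω → W := fun n ω => ⟨g n ω, hgW n ω⟩
  have hV : ∀ n, Measurable (V n) := fun n => (hg n).subtype_mk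
  have hVg : ∀ n ω, ((V n ω : W) : Z) = g n ω := fun n ω => rfl
  have hgind : iIndepFun g μ := hind.congr hgY
  have hVind : iIndepFun V μ := by
    have e : ∀ n, MeasurableSpace.comap (V n) inferInstance =
        MeasurableSpace.comap (g n) inferInstance := by
      intro n
      have : g n = (Subtype.val : W → Z) ∘ V n := rfl
      rw [this, ← MeasurableSpace.comap_comp]
      rfl
    have h1 : iIndep (fun n => MeasurableSpace.comap (g n) inferInstance) μ := hgind
    have h2 : (fun n => MeasurableSpace.comap (g n) inferInstance) =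
        fun n => MeasurableSpace.comap (V n) inferInstance := funext fun n => (e n).symm
    rw [h2] at h1
    exact h1
  have hall : ∀ᵐ ω ∂μ, ∀ n, Y n ω = g n ω := ae_all_iff.2 hgY
  have hVR : ∀ n, ∀ᵐ ω ∂μ, ‖V n ω‖ ≤ R := by
    intro n
    filter_upwards [hgY n] with ω hω
    have : ‖V n ω‖ = ‖g n ω‖ := rfl
    rw [this, ← hω]
    exact hR n ω
  have hVdet : ∀ δ : ℝ, 0 < δ → ∃ m : ℕ, 0 < m ∧ ∀ i : ℕ, ∀ᵐ ω ∂μ,
      ∑ s : Fin m → ℤˣ, ‖∑ j, sg (s j) • V (i * m + j) ω‖ ≤
        Fintype.card (Fin m → ℤˣ) * (δ * m) := by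
    intro δ hδ
    obtain ⟨m, hm, h⟩ := hdet δ hδ
    refine ⟨m, hm, fun i => ?_⟩
    filter_upwards [hall] with ω hω
    refine le_trans (le_of_eq ?_) (h i ω)
    refine Finset.sum_congr rfl fun s _ => ?_
    have : ‖∑ j, sg (s j) • V (i * m + j) ω‖ =
        ‖((∑ j, sg (s j) • V (i * m + j) ω : W) : Z)‖ := rfl
    rw [this]
    congr 1
    rw [AddSubmonoidClass.coe_finsetSum]
    refine Finset.sum_congr rfl fun j _ => ?_
    rw [Submodule.coe_smul, hVg, hω]
  have main := slln_blocks V hV hVind hVR hVdet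
  filter_upwards [main, hall] with ω hω hYω
  have hVint : ∀ n, Integrable (V n) μ := fun n =>
    Integrable.of_bound (hV n).aestronglyMeasurable R (hVR n)
  have hE : ∀ n, ((∫ ω, V n ω ∂μ : W) : Z) = ∫ ω, Y n ω ∂μ := by
    intro n
    have h1 := (W.subtypeL).integral_comp_comm (hVint n)
    have h2 : ∫ ω, W.subtypeL (V n ω) ∂μ = ∫ ω, Y n ω ∂μ :=
      integral_congr_ae (by
        filter_upwards [hgY n] with ω hω
        exact hω.symm)
    rw [h2] at h1
    exact h1.symm
  have h3 := (W.subtypeL.continuous.tendsto 0).comp hω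
  rw [map_zero] at h3
  refine h3.congr fun n => ?_
  simp only [Function.comp_apply, map_smul, map_sum, map_sub]
  congr 1
  refine Finset.sum_congr rfl fun i _ => ?_
  have h4 : W.subtypeL (V i ω) = Y i ω := (hYω i).symm
  have h5 : W.subtypeL (∫ ω, V i ω ∂μ) = ∫ ω, Y i ω ∂μ := hE i
  rw [h4, h5]

end General

section Hausdorff

variable {X : Type*} [NormedAddCommGroup X] [NormedSpace ℝ X]

theorem infDist_le (A B : BC X) {a : X} (ha : a ∈ A.carrier) :
    infDist a B.carrier ≤ ‖R A - R B‖ := by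
  by_contra hcon
  push Not at hcon
  obtain ⟨r', hr1, hr2⟩ := exists_between hcon
  obtain ⟨r, hr3, hr4⟩ := exists_between hr1
  have hr0 : 0 < r := (norm_nonneg _).trans_lt hr3
  have hdisj : Disjoint (ball a r') B.carrier := by
    rw [Set.disjoint_left]
    intro b hb hbB
    have h1 := infDist_le_dist_of_mem (x := a) hbB
    rw [mem_ball'] at hb
    linarith
  obtain ⟨f, u, hf1, hf2⟩ := geometric_hahn_banach_open (convex_ball a r') isOpen_ball B.convex hdisj
  obtain ⟨b, hb⟩ := B.nonempty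
  have hfa : f a < u := hf1 a (mem_ball_self (by linarith))
  have hfne : f ≠ 0 := by
    rintro rfl
    have := hf2 b hb
    simp at this hfa
    linarith
  have hfn : 0 < ‖f‖ := norm_pos_iff.2 hfne
  have hbound : r * ‖f‖ ≤ u - f a := by
    have h1 : ‖f‖ ≤ (u - f a) / r := by
      refine f.opNorm_le_bound (div_nonneg (by linarith) hr0.le) fun x => ?_
      rcases eq_or_ne x 0 with rfl | hx
      · simp
      · have hxn : 0 < ‖x‖ := norm_pos_iff.2 hx
        have key : ∀ σ : ℝ, |σ| = 1 → σ * f x ≤ (u - f a) / r * ‖x‖ := by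
          intro σ hσ
          have hmem : a + (σ * (r / ‖x‖)) • x ∈ ball a r' := by
            rw [mem_ball, dist_eq_norm, add_sub_cancel_left, norm_smul, norm_mul, norm_div,
              norm_norm, Real.norm_eq_abs, hσ, one_mul, Real.norm_of_nonneg hr0.le,
              div_mul_cancel₀ _ hxn.ne']
            exact hr4
          have h2 := hf1 _ hmem
          rw [map_add, map_smul, smul_eq_mul] at h2
          have h3 : σ * (r / ‖x‖) * f x ≤ u - f a := by linarith
          rw [div_mul_eq_mul_div, le_div_iff₀ hr0]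
          have h4 : σ * (r / ‖x‖) * f x = σ * f x * r / ‖x‖ := by ring
          rw [h4, div_le_iff₀ hxn] at h3
          linarith
        rw [Real.norm_eq_abs, abs_le']
        have k1 := key 1 (by norm_num)
        have k2 := key (-1) (by norm_num)
        constructor <;> linarith
    rw [le_div_iff₀ hr0] at h1
    linarith
  have hg : ‖-(‖f‖⁻¹ • f)‖ = 1 := by
    rw [norm_neg, norm_smul, norm_inv, norm_norm, inv_mul_cancel₀ hfn.ne']
  let g : DualSphere X := ⟨-(‖f‖⁻¹ • f), mem_sphere_zero_iff_norm.2 hg⟩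
  have hgx : ∀ x, g.1 x = -(‖f‖⁻¹ * f x) := fun x => rfl
  have h1 : -(‖f‖⁻¹ * f a) ≤ R A g := by
    rw [RS.R_apply, ← hgx]
    exact le_csSup (bddAbove_image A g.1) ⟨a, ha, rfl⟩
  have h2 : R B g ≤ -(‖f‖⁻¹ * u) := by
    rw [RS.R_apply]
    refine csSup_le (B.nonempty.image _) ?_
    rintro _ ⟨c, hc, rfl⟩
    rw [hgx]
    have h3 := hf2 c hc
    have h4 : 0 < ‖f‖⁻¹ := inv_pos.2 hfn
    nlinarith
  have h3 : R A g - R B g ≤ ‖R A - R B‖ := by
    have h4 := (R A - R B).norm_coe_le_norm g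
    rw [BoundedContinuousFunction.sub_apply, Real.norm_eq_abs] at h4
    exact (le_abs_self _).trans h4
  have h4 : ‖f‖⁻¹ * (r * ‖f‖) ≤ ‖f‖⁻¹ * (u - f a) :=
    mul_le_mul_of_nonneg_left hbound (inv_nonneg.2 hfn.le)
  have h5 : ‖f‖⁻¹ * (r * ‖f‖) = r := by
    field_simp
  rw [h5] at h4
  nlinarith

theorem hausdorffDist_le (A B : BC X) : hausdorffDist A.carrier B.carrier ≤ ‖R A - R B‖ := by
  refine hausdorffDist_le_of_infDist (norm_nonneg _) (fun a ha => infDist_le A B ha) fun b hb => ?_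
  rw [norm_sub_rev]
  exact infDist_le B A hb

theorem norm_R_le (A : BC X) {r : ℝ} (hr : 0 ≤ r) (h : ∀ a ∈ A.carrier, ‖a‖ ≤ r) : ‖R A‖ ≤ r := by
  rw [BoundedContinuousFunction.norm_le hr]
  intro f
  have hf : ‖f.1‖ = 1 := mem_sphere_zero_iff_norm.1 f.2
  have h1 := abs_supp_le A f.1
  rw [hf, mul_one] at h1
  exact h1.trans (setNorm_le A h)

end Hausdorff

section Main

variable {X : Type*} [NormedAddCommGroup X] [NormedSpace ℝ X]
variable {Ω : Type*} [MeasurableSpace Ω] {μ : Measure Ω} [IsProbabilityMeasure μ]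

/-- the average `(1/n) (A_0 + ... + A_{n-1})` -/
noncomputable def mean (A : ℕ → BC X) (n : ℕ) : BC X := ((n : ℝ)⁻¹) • ∑ i ∈ Finset.range n, A i

theorem R_mean (A : ℕ → BC X) (n : ℕ) : R (mean A n) = (n : ℝ)⁻¹ • ∑ i ∈ Finset.range n, R (A i) := by
  rw [mean, R_smul (by positivity), R_sum]

theorem main (hX : BConv X) (d : ℕ) (Ψ : ℕ → Ω → BC X) (U : ℕ → BC X) {r : ℝ}
    (hball : ∀ n ω, ∀ a ∈ (Ψ n ω).carrier, ‖a‖ ≤ r)
    (hdim : ∀ n ω, Module.rank ℝ (vectorSpan ℝ (Ψ n ω).carrier) ≤ (d : Cardinal))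
    (hind : IndepSets Ψ μ) (hexp : ∀ n, HasExpectation (Ψ n) (U n) μ) :
    ∀ᵐ ω ∂μ, Tendsto (fun n => hausdorffDist (mean (fun i => Ψ i ω) n).carrier (mean U n).carrier)
      atTop (𝓝 0) := by
  have hr : 0 ≤ r := by
    obtain ⟨ω⟩ : Nonempty Ω := nonempty_of_isProbabilityMeasure μ
    obtain ⟨a, ha⟩ := (Ψ 0 ω).nonempty
    exact (norm_nonneg a).trans (hball 0 ω a ha)
  have key := slln_general (μ := μ) (fun n ω => R (Ψ n ω)) (fun n => (hexp n).1) hind (R := r)
    (fun n ω => norm_R_le _ hr (hball n ω)) (by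
      intro δ hδ
      obtain ⟨m, hm, h⟩ := det_bound hX d hr hδ
      exact ⟨m, hm, fun i ω => h (fun j => Ψ (i * m + j) ω) (fun j => hball _ ω)
        (fun j => hdim _ ω)⟩)
  filter_upwards [key] with ω hω
  refine squeeze_zero (fun n => hausdorffDist_nonneg) (fun n => hausdorffDist_le _ _) ?_
  rw [tendsto_zero_iff_norm_tendsto_zero] at hω
  refine hω.congr fun n => ?_
  congr 1
  rw [R_mean, R_mean]
  have e : ∀ (c : ℝ) (u v : BoundedContinuousFunction (DualSphere X) ℝ),
      c • u - c • v = c • (u - v) := fun c u v => (smul_sub c u v).symm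
  rw [e, ← Finset.sum_sub_distrib]
  congr 1
  refine Finset.sum_congr rfl fun i _ => ?_
  rw [(hexp i).2]

end Main

end X169.RadFinal
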